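import Mathlib

/-!
# The Gaussian functional on polynomials in four variables
-/

namespace Pool.Agent.Work.MP_8d2b2d_co

open MvPolynomial

/-- moments of the standard real Gaussian distribution -/
def gm : ℕ → ℕ
  | 0 => 1
  | 1 => 0
  | (n + 2) => (n + 1) * gm n

lemma gm_succ (n : ℕ) : gm (n + 1) = n * gm (n - 1) := by
  cases n with
  | zero => simp [gm]
  | succ n => simp [gm]

/-- expectation with respect to four independent standard Gaussian variables -/
noncomputable def EE (R : Type*) [CommRing R] : MvPolynomial (Fin 4) R →ₗ[R] R :=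
  (MvPolynomial.basisMonomials (Fin 4) R).constr R (fun m => ((∏ i, gm (m i) : ℕ) : R))

variable {R : Type*} [CommRing R]

lemma EE_monomial (m : Fin 4 →₀ ℕ) (c : R) :
    EE R (monomial m c) = c * ((∏ i, gm (m i) : ℕ) : R) := by
  have h : monomial m c = c • (MvPolynomial.basisMonomials (Fin 4) R) m := by
    rw [MvPolynomial.coe_basisMonomials, MvPolynomial.smul_monomial]
    simp
  rw [h, map_smul, EE, Module.Basis.constr_basis, smul_eq_mul]

lemma EE_C (c : R) : EE R (C c) = c := by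
  have h : (C c : MvPolynomial (Fin 4) R) = monomial 0 c := rfl
  rw [h, EE_monomial]
  simp [gm]

lemma EE_one : EE R 1 = 1 := by
  have h := EE_C (1 : R)
  rwa [map_one] at h

/-- integration by parts -/
lemma EE_X_mul (i : Fin 4) (p : MvPolynomial (Fin 4) R) :
    EE R (X i * p) = EE R (pderiv i p) := by
  induction p using MvPolynomial.induction_on' with
  | add p q hp hq => rw [mul_add, map_add, map_add, map_add, hp, hq]
  | monomial m c =>
    rw [pderiv_monomial, X, monomial_mul, EE_monomial, EE_monomial, one_mul, mul_assoc]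
    congr 1
    rw [← Nat.cast_mul]
    congr 1
    rw [Fintype.prod_eq_mul_prod_compl i (fun j => gm ((Finsupp.single i 1 + m : Fin 4 →₀ ℕ) j)),
      Fintype.prod_eq_mul_prod_compl i (fun j => gm ((m - Finsupp.single i 1 : Fin 4 →₀ ℕ) j)),
      ← mul_assoc]
    congr 1
    · rw [Finsupp.add_apply, Finsupp.single_eq_same, add_comm, gm_succ, Finsupp.tsub_apply,
        Finsupp.single_eq_same]
    · apply Finset.prod_congr rfl
      intro j hj
      rw [Finset.mem_compl, Finset.mem_singleton] at hj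
      rw [Finsupp.add_apply, Finsupp.tsub_apply, Finsupp.single_eq_of_ne hj]
      simp

lemma EE_map {S : Type*} [CommRing S] (φ : R →+* S) (p : MvPolynomial (Fin 4) R) :
    EE S (map φ p) = φ (EE R p) := by
  induction p using MvPolynomial.induction_on' with
  | add p q hp hq => rw [map_add, map_add, map_add, map_add, hp, hq]
  | monomial m c =>
    rw [map_monomial, EE_monomial, EE_monomial, map_mul, map_natCast]

/-! ### complex variables -/

/-- `X₀ + i X₁` -/
noncomputable def zz : MvPolynomial (Fin 4) ℂ := X 0 + C Complex.I * X 1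
/-- `X₀ - i X₁` -/
noncomputable def zb : MvPolynomial (Fin 4) ℂ := X 0 - C Complex.I * X 1
/-- `X₂ + i X₃` -/
noncomputable def ww : MvPolynomial (Fin 4) ℂ := X 2 + C Complex.I * X 3
/-- `X₂ - i X₃` -/
noncomputable def wb : MvPolynomial (Fin 4) ℂ := X 2 - C Complex.I * X 3

/-- complex derivations -/
noncomputable def dd (i j : Fin 4) (u : ℂ) :
    Derivation ℂ (MvPolynomial (Fin 4) ℂ) (MvPolynomial (Fin 4) ℂ) :=
  pderiv i + u • pderiv j

lemma EE_dd (i j : Fin 4) (u : ℂ) (p : MvPolynomial (Fin 4) ℂ) :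
    EE ℂ ((X i + C u * X j) * p) = EE ℂ (dd i j u p) := by
  rw [add_mul, map_add, EE_X_mul, mul_assoc, ← smul_eq_C_mul, map_smul, EE_X_mul, dd]
  rw [Derivation.add_apply, Derivation.smul_apply, map_add, map_smul]

lemma EE_zz (p : MvPolynomial (Fin 4) ℂ) : EE ℂ (zz * p) = EE ℂ (dd 0 1 Complex.I p) :=
  EE_dd 0 1 Complex.I p

lemma EE_zb (p : MvPolynomial (Fin 4) ℂ) : EE ℂ (zb * p) = EE ℂ (dd 0 1 (-Complex.I) p) := by
  rw [← EE_dd, zb, C_neg, neg_mul, sub_eq_add_neg]

lemma EE_ww (p : MvPolynomial (Fin 4) ℂ) : EE ℂ (ww * p) = EE ℂ (dd 2 3 Complex.I p) :=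
  EE_dd 2 3 Complex.I p

lemma EE_wb (p : MvPolynomial (Fin 4) ℂ) : EE ℂ (wb * p) = EE ℂ (dd 2 3 (-Complex.I) p) := by
  rw [← EE_dd, wb, C_neg, neg_mul, sub_eq_add_neg]

lemma dd_lin (i j k l : Fin 4) (u v : ℂ) : dd i j u (X k + C v * X l) =
    C ((if k = i then 1 else 0) + v * (if l = i then 1 else 0) +
      u * ((if k = j then 1 else 0) + v * (if l = j then 1 else 0))) := by
  rw [dd, Derivation.add_apply, Derivation.smul_apply, map_add, map_add, pderiv_C_mul, pderiv_C_mul,
    pderiv_X, pderiv_X, pderiv_X, pderiv_X, smul_eq_C_mul]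
  simp only [Pi.single_apply]
  split_ifs <;> simp

lemma zb_eq : zb = X 0 + C (-Complex.I) * X 1 := by rw [zb, C_neg, neg_mul, sub_eq_add_neg]
lemma wb_eq : wb = X 2 + C (-Complex.I) * X 3 := by rw [wb, C_neg, neg_mul, sub_eq_add_neg]

lemma dz_zz : dd 0 1 Complex.I zz = 0 := by
  rw [zz, dd_lin]; simp
lemma dz_zb : dd 0 1 Complex.I zb = C 2 := by
  rw [zb_eq, dd_lin]; congr 1; simp; norm_num
lemma dz_ww : dd 0 1 Complex.I ww = 0 := by
  rw [ww, dd_lin]; simp
lemma dz_wb : dd 0 1 Complex.I wb = 0 := by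
  rw [wb_eq, dd_lin]; simp
lemma db_zz : dd 0 1 (-Complex.I) zz = C 2 := by
  rw [zz, dd_lin]; congr 1; simp; norm_num
lemma db_zb : dd 0 1 (-Complex.I) zb = 0 := by
  rw [zb_eq, dd_lin]; simp
lemma db_ww : dd 0 1 (-Complex.I) ww = 0 := by
  rw [ww, dd_lin]; simp
lemma db_wb : dd 0 1 (-Complex.I) wb = 0 := by
  rw [wb_eq, dd_lin]; simp
lemma dw_ww : dd 2 3 Complex.I ww = 0 := by
  rw [ww, dd_lin]; simp
lemma dw_wb : dd 2 3 Complex.I wb = C 2 := by
  rw [wb_eq, dd_lin]; congr 1; simp; norm_num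
lemma dv_ww : dd 2 3 (-Complex.I) ww = C 2 := by
  rw [ww, dd_lin]; congr 1; simp; norm_num
lemma dv_wb : dd 2 3 (-Complex.I) wb = 0 := by
  rw [wb_eq, dd_lin]; simp

lemma dpow (D : Derivation ℂ (MvPolynomial (Fin 4) ℂ) (MvPolynomial (Fin 4) ℂ))
    (p : MvPolynomial (Fin 4) ℂ) (n : ℕ) : D (p ^ n) = (n : MvPolynomial (Fin 4) ℂ) *
      p ^ (n - 1) * D p := by
  rw [Derivation.leibniz_pow, nsmul_eq_mul, smul_eq_mul, mul_assoc]

/-- moments in the second complex variable -/
lemma EE_w (j j' : ℕ) : EE ℂ (ww ^ j * wb ^ j') =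
    if j = j' then (2 ^ j * j.factorial : ℂ) else 0 := by
  induction j generalizing j' with
  | zero =>
    cases j' with
    | zero => simp [EE_one]
    | succ j' =>
      rw [pow_zero, one_mul, pow_succ', EE_wb, dpow, dv_wb, mul_zero, map_zero, if_neg (by omega)]
  | succ j ih =>
    rw [pow_succ', mul_assoc, EE_ww, Derivation.leibniz, dpow, dpow, dw_ww, dw_wb, mul_zero,
      smul_zero, add_zero, smul_eq_mul]
    cases j' with
    | zero =>
      simp
    | succ j' =>
      have e : ww ^ j * (((j' + 1 : ℕ) : MvPolynomial (Fin 4) ℂ) * wb ^ (j' + 1 - 1) * C 2) =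
          C (((j' + 1 : ℕ) : ℂ) * 2) * (ww ^ j * wb ^ j') := by
        rw [Nat.add_sub_cancel, C_mul, map_natCast]
        ring
      rw [e, ← smul_eq_C_mul, map_smul, ih, smul_eq_mul]
      by_cases h : j = j'
      · subst h
        rw [if_pos rfl, if_pos rfl, Nat.factorial_succ]
        push_cast
        ring
      · rw [if_neg h, if_neg (by omega), mul_zero]

/-- moments -/
lemma EE_zw (i i' j j' : ℕ) : EE ℂ (zz ^ i * zb ^ i' * (ww ^ j * wb ^ j')) =
    if i = i' ∧ j = j' then (2 ^ (i + j) * (i.factorial * j.factorial) : ℂ) else 0 := by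
  induction i generalizing i' with
  | zero =>
    cases i' with
    | zero =>
      rw [pow_zero, pow_zero, one_mul, one_mul, EE_w]
      simp
    | succ i' =>
      rw [pow_zero, one_mul, pow_succ', mul_assoc, EE_zb, Derivation.leibniz, dpow, db_zb,
        Derivation.leibniz, dpow, dpow, db_ww, db_wb, if_neg (by omega)]
      simp
  | succ i ih =>
    rw [pow_succ', mul_assoc, mul_assoc, EE_zz, Derivation.leibniz, dpow, dz_zz,
      Derivation.leibniz, dpow, dz_zb, Derivation.leibniz, dpow, dpow, dz_ww, dz_wb]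
    simp only [mul_zero, add_zero, zero_add, smul_eq_mul]
    cases i' with
    | zero =>
      simp
    | succ i' =>
      have e : zz ^ i * (ww ^ j * wb ^ j' * (((i' + 1 : ℕ) : MvPolynomial (Fin 4) ℂ) *
            zb ^ (i' + 1 - 1) * C 2)) =
          C (((i' + 1 : ℕ) : ℂ) * 2) * (zz ^ i * zb ^ i' * (ww ^ j * wb ^ j')) := by
        rw [Nat.add_sub_cancel, C_mul, map_natCast]
        ring
      rw [e, ← smul_eq_C_mul, map_smul, ih, smul_eq_mul]
      by_cases h : i = i' ∧ j = j'
      · obtain ⟨rfl, rfl⟩ := h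
        rw [if_pos ⟨rfl, rfl⟩, if_pos ⟨rfl, rfl⟩, Nat.factorial_succ]
        push_cast
        ring
      · rw [if_neg h, if_neg (by omega), mul_zero]

end Pool.Agent.Work.MP_8d2b2d_co
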