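import Mathlib

/-!
# The Fock inner product on polynomials
-/

namespace Pool.Agent.Work.MP_8d2b2d_co

open MvPolynomial Finset

set_option linter.unusedSectionVars false

variable {d : Type} [Fintype d] [DecidableEq d]

/-- multi-factorial -/
def fac (α : d →₀ ℕ) : ℕ := ∏ i, (α i).factorial

/-- the Fock inner product, conjugate linear in the first variable -/
noncomputable def ip (p q : MvPolynomial d ℂ) : ℂ :=
  ∑ α ∈ p.support, (fac α : ℂ) * ((starRingEnd ℂ) (p.coeff α) * q.coeff α)

lemma ip_eq_left {p q : MvPolynomial d ℂ} {s : Finset (d →₀ ℕ)} (h : p.support ⊆ s) :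
    ip p q = ∑ α ∈ s, (fac α : ℂ) * ((starRingEnd ℂ) (p.coeff α) * q.coeff α) := by
  refine Finset.sum_subset h fun α _ hα => ?_
  rw [notMem_support_iff.1 hα]; simp

lemma ip_eq_right {p q : MvPolynomial d ℂ} {s : Finset (d →₀ ℕ)} (h : q.support ⊆ s) :
    ip p q = ∑ α ∈ s, (fac α : ℂ) * ((starRingEnd ℂ) (p.coeff α) * q.coeff α) := by
  rw [ip_eq_left (s := p.support ∪ s) Finset.subset_union_left]
  refine (Finset.sum_subset Finset.subset_union_right fun α _ hα => ?_).symm
  rw [notMem_support_iff.1 (fun hh => hα (h hh))]; simp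

lemma ip_conj (p q : MvPolynomial d ℂ) : (starRingEnd ℂ) (ip p q) = ip q p := by
  rw [ip_eq_right (p := q) (q := p) (s := p.support) subset_rfl, ip, map_sum]
  refine Finset.sum_congr rfl fun α _ => ?_
  simp only [map_mul, map_natCast, Complex.conj_conj]
  ring

lemma ip_add_right (p q r : MvPolynomial d ℂ) : ip p (q + r) = ip p q + ip p r := by
  rw [ip, ip, ip, ← Finset.sum_add_distrib]
  refine Finset.sum_congr rfl fun α _ => ?_
  rw [coeff_add]; ring

lemma ip_add_left (p q r : MvPolynomial d ℂ) : ip (p + q) r = ip p r + ip q r := by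
  rw [← ip_conj, ip_add_right, map_add, ip_conj, ip_conj]

lemma ip_C_mul_right (c : ℂ) (p q : MvPolynomial d ℂ) : ip p (C c * q) = c * ip p q := by
  rw [ip, ip, Finset.mul_sum]
  refine Finset.sum_congr rfl fun α _ => ?_
  rw [coeff_C_mul]; ring

lemma ip_C_mul_left (c : ℂ) (p q : MvPolynomial d ℂ) :
    ip (C c * p) q = (starRingEnd ℂ) c * ip p q := by
  rw [← ip_conj, ip_C_mul_right, map_mul, ip_conj]

lemma ip_zero_right (p : MvPolynomial d ℂ) : ip p 0 = 0 := by
  simp [ip]

lemma ip_zero_left (p : MvPolynomial d ℂ) : ip 0 p = 0 := by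
  simp [ip]

lemma ip_sum_right {ι : Type*} (s : Finset ι) (p : MvPolynomial d ℂ) (f : ι → MvPolynomial d ℂ) :
    ip p (∑ i ∈ s, f i) = ∑ i ∈ s, ip p (f i) := by
  classical
  induction s using Finset.induction_on with
  | empty => simp [ip_zero_right]
  | insert i s hi ih => rw [Finset.sum_insert hi, Finset.sum_insert hi, ip_add_right, ih]

lemma ip_sum_left {ι : Type*} (s : Finset ι) (p : MvPolynomial d ℂ) (f : ι → MvPolynomial d ℂ) :
    ip (∑ i ∈ s, f i) p = ∑ i ∈ s, ip (f i) p := by
  classical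
  induction s using Finset.induction_on with
  | empty => simp [ip_zero_left]
  | insert i s hi ih => rw [Finset.sum_insert hi, Finset.sum_insert hi, ip_add_left, ih]

lemma ip_neg_right (p q : MvPolynomial d ℂ) : ip p (-q) = - ip p q := by
  have := ip_C_mul_right (-1) p q
  simpa using this

lemma ip_sub_right (p q r : MvPolynomial d ℂ) : ip p (q - r) = ip p q - ip p r := by
  rw [sub_eq_add_neg, ip_add_right, ip_neg_right, sub_eq_add_neg]

/-- adjointness of multiplication by `X i` and `∂ i` -/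
lemma ip_X_mul (i : d) (p q : MvPolynomial d ℂ) : ip (X i * p) q = ip p (pderiv i q) := by
  rw [ip, ip, support_X_mul, Finset.sum_map]
  refine Finset.sum_congr rfl fun α _ => ?_
  simp only [addLeftEmbedding_apply]
  rw [coeff_X_mul, coeff_pderiv, add_comm (Finsupp.single i 1) α]
  have h1 : fac (α + Finsupp.single i 1) = fac α * (α i + 1) := by
    rw [fac, fac, ← Finset.mul_prod_erase _ _ (Finset.mem_univ i),
      ← Finset.mul_prod_erase (s := univ) (f := fun j => (α j).factorial) (Finset.mem_univ i)]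
    have h2 : ∏ j ∈ univ.erase i, ((α + Finsupp.single i 1 : d →₀ ℕ) j).factorial =
        ∏ j ∈ univ.erase i, (α j).factorial := by
      refine Finset.prod_congr rfl fun j hj => ?_
      rw [Finsupp.add_apply, Finsupp.single_eq_of_ne (Finset.ne_of_mem_erase hj), add_zero]
    rw [h2, Finsupp.add_apply, Finsupp.single_eq_same, Nat.factorial_succ]
    ring
  rw [h1]
  push_cast
  ring

lemma ip_X_mul_right (i : d) (p q : MvPolynomial d ℂ) : ip p (X i * q) = ip (pderiv i p) q := by
  rw [← ip_conj, ip_X_mul, ip_conj]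

/-- the square of the norm -/
noncomputable def N (p : MvPolynomial d ℂ) : ℝ := (ip p p).re

lemma ip_self_eq (p : MvPolynomial d ℂ) :
    ip p p = ((∑ α ∈ p.support, (fac α : ℝ) * ‖p.coeff α‖ ^ 2 : ℝ) : ℂ) := by
  rw [ip]
  push_cast
  refine Finset.sum_congr rfl fun α _ => ?_
  rw [Complex.conj_mul']

lemma ip_self (p : MvPolynomial d ℂ) : ip p p = (N p : ℂ) := by
  rw [N, ip_self_eq, Complex.ofReal_re]

lemma N_nonneg (p : MvPolynomial d ℂ) : 0 ≤ N p := by
  rw [N, ip_self_eq, Complex.ofReal_re]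
  exact Finset.sum_nonneg fun α _ => by positivity

lemma N_one : N (1 : MvPolynomial d ℂ) = 1 := by
  have h1 : ip (1 : MvPolynomial d ℂ) 1 = 1 := by
    rw [ip_eq_left (s := {0}) (by
      intro α hα
      rw [Finset.mem_singleton]
      by_contra h
      rw [mem_support_iff, ← C_1, coeff_C, if_neg (fun hh => h hh.symm)] at hα
      exact hα rfl), Finset.sum_singleton]
    simp [fac]
  rw [N, h1, Complex.one_re]

/-- `0 ≤ ‖p - t q‖²` -/
lemma N_quad (p q : MvPolynomial d ℂ) (t : ℝ) :
    0 ≤ N p - 2 * t * (ip q p).re + t ^ 2 * N q := by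
  have h1 := N_nonneg (p - C (t : ℂ) * q)
  have h2 : N (p - C (t : ℂ) * q) = N p - 2 * t * (ip q p).re + t ^ 2 * N q := by
    have h3 : ip (p - C (t : ℂ) * q) (p - C (t : ℂ) * q) =
        ip p p - t * ip q p - t * (starRingEnd ℂ) (ip q p) + t ^ 2 * ip q q := by
      rw [sub_eq_add_neg, ← neg_mul, ← C_neg, ip_add_right, ip_add_left, ip_add_left,
        ip_C_mul_right, ip_C_mul_left, ip_C_mul_left, ip_C_mul_right, ip_conj]
      simp only [map_neg, Complex.conj_ofReal]
      ring
    rw [N, h3, N, N]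
    simp only [Complex.add_re, Complex.sub_re, Complex.mul_re, Complex.ofReal_re, Complex.ofReal_im,
      zero_mul, sub_zero, Complex.conj_re, ← Complex.ofReal_pow]
    ring
  rw [← h2]
  exact h1

/-- Euler: `∑ ‖∂ a G‖² = n ‖G‖²` -/
lemma sum_N_pderiv {G : MvPolynomial d ℂ} {n : ℕ} (hG : G.IsHomogeneous n) :
    ∑ a, N (pderiv a G) = n * N G := by
  have h1 : ∑ a, ip (pderiv a G) (pderiv a G) = n * ip G G := by
    have h2 : ∀ a, ip (pderiv a G) (pderiv a G) = ip G (X a * pderiv a G) := by
      intro a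
      exact (ip_X_mul_right a G _).symm
    simp only [h2]
    rw [← ip_sum_right, hG.sum_X_mul_pderiv, nsmul_eq_mul]
    have := ip_C_mul_right (n : ℂ) G G
    rw [← this]
    simp
  have h3 := congrArg Complex.re h1
  rw [Complex.re_sum] at h3
  rw [show (n : ℝ) * N G = ((n : ℂ) * ip G G).re by
    rw [Complex.mul_re]; simp [N]]
  exact h3

/-- `∑ ‖X a G‖² = (n + dim) ‖G‖²` -/
lemma sum_N_X_mul {G : MvPolynomial d ℂ} {n : ℕ} (hG : G.IsHomogeneous n) :
    ∑ a, N (X a * G) = (n + Fintype.card d) * N G := by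
  have h1 : ∀ a : d, N (X a * G) = N G + N (pderiv a G) := by
    intro a
    have h2 : ip (X a * G) (X a * G) = ip G G + ip (pderiv a G) (pderiv a G) := by
      rw [ip_X_mul, pderiv_mul, pderiv_X_self, one_mul, ip_add_right, ip_X_mul_right]
    rw [N, h2, Complex.add_re]
    rfl
  simp only [h1]
  rw [Finset.sum_add_distrib, sum_N_pderiv hG, Finset.sum_const, Finset.card_univ, nsmul_eq_mul]
  ring

end Pool.Agent.Work.MP_8d2b2d_co
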