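import Mathlib
import Pool.Agent.Work.MP_8d2b2d_co.Fock

/-!
# The permanent of a Gram matrix is the squared Fock norm of a product of linear forms
-/

namespace Pool.Agent.Work.MP_8d2b2d_co

open MvPolynomial Finset

set_option linter.unusedSectionVars false

section count

variable {ι κ : Type} [Fintype ι] [DecidableEq ι] [Fintype κ] [DecidableEq κ]

/-- permutations carrying a colouring to another one -/
def permEquiv' (c c' : ι → κ) : {σ : Equiv.Perm ι // c ∘ σ = c'} ≃
    (∀ a, ({x // c' x = a} ≃ {x // c x = a})) where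
  toFun σ a :=
    { toFun := fun x => ⟨σ.1 x.1, (congrFun σ.2 x.1).trans x.2⟩
      invFun := fun y => ⟨σ.1.symm y.1,
        (congrFun σ.2 (σ.1.symm y.1)).symm.trans (by simp [y.2])⟩
      left_inv := fun x => by simp
      right_inv := fun y => by simp }
  invFun e := ⟨Equiv.ofFiberEquiv e, by
    funext x
    exact Equiv.ofFiberEquiv_map e x⟩
  left_inv := fun σ => by
    apply Subtype.ext
    ext x
    rfl
  right_inv := fun e => by
    funext a
    ext x
    obtain ⟨x, rfl⟩ := x
    rfl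

/-- content of a colouring -/
noncomputable def cont (c : ι → κ) : κ →₀ ℕ := ∑ i, Finsupp.single (c i) 1

lemma cont_apply (c : ι → κ) (a : κ) : cont c a = Fintype.card {x // c x = a} := by
  rw [cont, Finsupp.finsetSum_apply, Fintype.card_subtype, Finset.card_filter]
  refine Finset.sum_congr rfl fun i _ => ?_
  rw [Finsupp.single_apply]

lemma card_perm' (c c' : ι → κ) (h : cont c = cont c') :
    Fintype.card {σ : Equiv.Perm ι // c ∘ σ = c'} = fac (cont c) := by
  rw [Fintype.card_congr (permEquiv' c c'), Fintype.card_pi, fac]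
  apply Finset.prod_congr rfl
  intro a _
  have h1 : Fintype.card {x // c' x = a} = Fintype.card {x // c x = a} := by
    rw [← cont_apply, ← cont_apply, h]
  rw [Fintype.card_equiv (Fintype.equivOfCardEq h1), h1, ← cont_apply]

lemma cont_comp (c : ι → κ) (σ : Equiv.Perm ι) : cont (c ∘ σ) = cont c := by
  ext a
  rw [cont_apply, cont_apply]
  exact Fintype.card_congr (σ.subtypeEquiv (fun x => Iff.rfl))

lemma sum_perm' (F : (ι → κ) → ℂ) (c : ι → κ) :
    ∑ σ : Equiv.Perm ι, F (c ∘ σ) =
      ∑ c' : ι → κ, if cont c = cont c' then (fac (cont c) : ℂ) * F c' else 0 := by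
  have h1 : ∑ σ : Equiv.Perm ι, F (c ∘ σ) =
      ∑ c' : ι → κ, ∑ σ ∈ univ.filter (fun σ : Equiv.Perm ι => c ∘ σ = c'), F (c ∘ σ) :=
    (Finset.sum_fiberwise univ (fun σ : Equiv.Perm ι => c ∘ ⇑σ) (fun σ => F (c ∘ σ))).symm
  rw [h1]
  apply Finset.sum_congr rfl
  intro c' _
  have h2 : ∑ σ ∈ univ.filter (fun σ : Equiv.Perm ι => c ∘ σ = c'), F (c ∘ σ) =
      ∑ σ ∈ univ.filter (fun σ : Equiv.Perm ι => c ∘ σ = c'), F c' := by
    apply Finset.sum_congr rfl
    intro σ hσ
    rw [mem_filter] at hσ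
    rw [hσ.2]
  rw [h2, Finset.sum_const, nsmul_eq_mul, ← Fintype.card_subtype]
  split_ifs with h
  · rw [card_perm' c c' h]
  · have : IsEmpty {σ : Equiv.Perm ι // c ∘ σ = c'} := by
      constructor
      rintro ⟨σ, rfl⟩
      exact h (cont_comp c σ).symm
    rw [Fintype.card_eq_zero]
    simp

lemma ip_monomial (α β : κ →₀ ℕ) :
    ip (monomial α (1 : ℂ)) (monomial β (1 : ℂ)) = if α = β then (fac α : ℂ) else 0 := by
  rw [ip_eq_left (s := {α}) support_monomial_subset, Finset.sum_singleton, coeff_monomial,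
    coeff_monomial]
  by_cases h : α = β
  · subst h; simp
  · rw [if_neg h, if_neg (fun hh : β = α => h hh.symm)]; simp

/-- the linear form with coefficients `a` -/
noncomputable def L (a : κ → ℂ) : MvPolynomial κ ℂ := ∑ c, C (a c) * X c

lemma prod_L (A : ι → κ → ℂ) :
    ∏ i, L (A i) = ∑ c : ι → κ, C (∏ i, A i (c i)) * monomial (cont c) 1 := by
  simp only [L]
  rw [Finset.prod_univ_sum, Fintype.piFinset_univ]
  refine Finset.sum_congr rfl fun c _ => ?_
  rw [Finset.prod_mul_distrib, map_prod]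
  congr 1
  rw [cont, MvPolynomial.monomial_sum_one]
  rfl

/-- the permanent of a Gram matrix -/
theorem permanent_gram' (A : ι → κ → ℂ) :
    (Matrix.of (fun i j => ∑ c, (starRingEnd ℂ) (A i c) * A j c)).permanent =
      ip (∏ i, L (A i)) (∏ i, L (A i)) := by
  let F : (ι → κ) → ℂ := fun c => ∏ i, A i (c i)
  have h1 : (Matrix.of (fun i j => ∑ c, (starRingEnd ℂ) (A i c) * A j c)).permanent =
      ∑ c : ι → κ, F c * ∑ σ : Equiv.Perm ι, (starRingEnd ℂ) (F (c ∘ σ)) := by
    unfold Matrix.permanent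
    simp only [Matrix.of_apply]
    have e1 : ∀ σ : Equiv.Perm ι, ∏ i, ∑ c, (starRingEnd ℂ) (A (σ i) c) * A i c =
        ∑ c : ι → κ, F c * (starRingEnd ℂ) (F (c ∘ σ.symm)) := by
      intro σ
      rw [Finset.prod_univ_sum, Fintype.piFinset_univ]
      apply Finset.sum_congr rfl
      intro c _
      rw [Finset.prod_mul_distrib, mul_comm]
      congr 1
      change _ = (starRingEnd ℂ) (∏ i, A i ((c ∘ σ.symm) i))
      rw [map_prod, ← Equiv.prod_comp σ (fun i => (starRingEnd ℂ) (A i ((c ∘ σ.symm) i)))]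
      simp
    rw [Finset.sum_congr rfl (fun σ _ => e1 σ), Finset.sum_comm]
    apply Finset.sum_congr rfl
    intro c _
    rw [← Finset.mul_sum]
    congr 1
    exact Equiv.sum_comp (Equiv.inv (Equiv.Perm ι))
      (fun σ : Equiv.Perm ι => (starRingEnd ℂ) (F (c ∘ σ)))
  rw [h1, prod_L, ip_sum_right]
  refine Finset.sum_congr rfl fun c _ => ?_
  rw [ip_C_mul_right, ip_sum_left, sum_perm' (fun c => (starRingEnd ℂ) (F c)) c]
  congr 1
  refine Finset.sum_congr rfl fun c' _ => ?_
  rw [ip_C_mul_left, ip_monomial]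
  by_cases h : cont c = cont c'
  · rw [if_pos h, if_pos h.symm, h, mul_comm]
  · rw [if_neg h, if_neg (fun hh => h hh.symm), mul_zero]

end count

end Pool.Agent.Work.MP_8d2b2d_co
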