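import Mathlib
import Pool.Agent.Work.MP_8d2b2d_co.Gram

/-!
# The product of three linear forms
-/

namespace Pool.Agent.Work.MP_8d2b2d_co

open MvPolynomial Finset

set_option linter.unusedSectionVars false

section general

variable {d : Type} [Fintype d] [DecidableEq d]

/-- the derivation adjoint to the multiplication by `L a` -/
noncomputable def dL (a : d → ℂ) : Derivation ℂ (MvPolynomial d ℂ) (MvPolynomial d ℂ) :=
  ∑ c, (starRingEnd ℂ) (a c) • pderiv c

lemma dL_apply (a : d → ℂ) (p : MvPolynomial d ℂ) :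
    dL a p = ∑ c, C ((starRingEnd ℂ) (a c)) * pderiv c p := by
  rw [dL]
  have h : ∀ s : Finset d, (∑ c ∈ s, (starRingEnd ℂ) (a c) •
      (pderiv c : Derivation ℂ (MvPolynomial d ℂ) (MvPolynomial d ℂ))) p =
      ∑ c ∈ s, C ((starRingEnd ℂ) (a c)) * pderiv c p := by
    intro s
    induction s using Finset.induction_on with
    | empty => simp
    | insert c s hc ih =>
      rw [Finset.sum_insert hc, Finset.sum_insert hc, Derivation.add_apply, ih,
        Derivation.smul_apply, smul_eq_C_mul]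
  exact h univ

lemma dL_C (a : d → ℂ) (c : ℂ) : dL a (C c) = 0 := by
  rw [dL_apply]; simp

lemma dL_X (a : d → ℂ) (i : d) : dL a (X i) = C ((starRingEnd ℂ) (a i)) := by
  rw [dL_apply, Finset.sum_eq_single i]
  · simp
  · intro b _ hb
    rw [pderiv_X_of_ne (Ne.symm hb), mul_zero]
  · intro h; exact absurd (Finset.mem_univ _) h

lemma dL_L (a b : d → ℂ) : dL a (L b) = C (∑ c, (starRingEnd ℂ) (a c) * b c) := by
  rw [L, map_sum, map_sum]
  refine Finset.sum_congr rfl fun c _ => ?_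
  rw [Derivation.leibniz, dL_X, dL_C, smul_eq_mul, smul_zero, add_zero, ← C_mul, mul_comm]

lemma dL_comm (a b : d → ℂ) (p : MvPolynomial d ℂ) : dL a (dL b p) = dL b (dL a p) := by
  have h : (⁅dL a, dL b⁆ : Derivation ℂ (MvPolynomial d ℂ) (MvPolynomial d ℂ)) = 0 := by
    refine MvPolynomial.derivation_ext fun i => ?_
    rw [Derivation.commutator_apply, dL_X, dL_X, dL_C, dL_C]
    simp
  have h2 := congrArg (fun D => D p) h
  simp only [Derivation.commutator_apply] at h2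
  exact sub_eq_zero.1 h2

lemma ip_L_mul (a : d → ℂ) (p q : MvPolynomial d ℂ) : ip (L a * p) q = ip p (dL a q) := by
  rw [L, Finset.sum_mul, ip_sum_left, dL_apply, ip_sum_right]
  refine Finset.sum_congr rfl fun c _ => ?_
  rw [mul_assoc, ip_C_mul_left, ip_X_mul, ip_C_mul_right]

lemma ip_dL_left (a : d → ℂ) (p q : MvPolynomial d ℂ) : ip (dL a p) q = ip p (L a * q) := by
  rw [← ip_conj, ← ip_L_mul, ip_conj]

end general

/-- the normal ordering identity for three derivations -/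
lemma normal_order {R : Type} [CommRing R] [Algebra ℂ R] (D : Fin 3 → Derivation ℂ R R)
    (hc : ∀ i j p, D i (D j p) = D j (D i p)) (l : Fin 3 → R) (c : Fin 3 → Fin 3 → R)
    (hl : ∀ i j, D i (l j) = c i j) (hc0 : ∀ i j k, D i (c j k) = 0) (f : R) :
    2 * D 0 (D 1 (D 2 (l 0 * l 1 * l 2 * f))) -
      ∑ i, ∑ j, c i j * D (i + 1) (D (i + 2) (l (j + 1) * l (j + 2) * f)) =
    2 * (l 0 * l 1 * l 2 * D 0 (D 1 (D 2 f))) +
      ∑ i, ∑ j, c i j * (l (j + 1) * l (j + 2) * D (i + 1) (D (i + 2) f)) -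
      (c 0 0 * c 1 1 * c 2 2 + c 0 0 * c 1 2 * c 2 1 + c 0 1 * c 1 0 * c 2 2 +
        c 0 1 * c 1 2 * c 2 0 + c 0 2 * c 1 0 * c 2 1 + c 0 2 * c 1 1 * c 2 0) * f := by
  have e20 : ∀ p, D 2 (D 0 p) = D 0 (D 2 p) := hc 2 0
  have a11 : (1 : Fin 3) + 1 = 2 := rfl
  have a12 : (1 : Fin 3) + 2 = 0 := rfl
  have a21 : (2 : Fin 3) + 1 = 0 := rfl
  have a22 : (2 : Fin 3) + 2 = 1 := rfl
  simp only [Fin.sum_univ_three, zero_add, a11, a12, a21, a22, Derivation.leibniz, map_add,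
    smul_eq_mul, hl, hc0, mul_zero, add_zero, e20]
  ring

lemma triple_const {R : Type} [CommRing R] [Algebra ℂ R] (D : Fin 3 → Derivation ℂ R R)
    (l : Fin 3 → R) (c : Fin 3 → Fin 3 → R)
    (hl : ∀ i j, D i (l j) = c i j) (hc0 : ∀ i j k, D i (c j k) = 0) :
    D 0 (D 1 (D 2 (l 0 * l 1 * l 2))) =
      (c 0 0 * c 1 1 * c 2 2 + c 0 0 * c 1 2 * c 2 1 + c 0 1 * c 1 0 * c 2 2 +
        c 0 1 * c 1 2 * c 2 0 + c 0 2 * c 1 0 * c 2 1 + c 0 2 * c 1 1 * c 2 0) := by
  simp only [Derivation.leibniz, map_add, smul_eq_mul, hl, hc0, mul_zero, add_zero, zero_add]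
  ring

section three

variable {d : Type} [Fintype d] [DecidableEq d] (b : Fin 3 → d → ℂ)

/-- the product of the three forms -/
noncomputable def hh : MvPolynomial d ℂ := L (b 0) * L (b 1) * L (b 2)

/-- the Gram matrix -/
noncomputable def gm (i j : Fin 3) : ℂ := ∑ c, (starRingEnd ℂ) (b i c) * b j c

lemma gm_conj (i j : Fin 3) : (starRingEnd ℂ) (gm b i j) = gm b j i := by
  rw [gm, gm, map_sum]
  refine Finset.sum_congr rfl fun c _ => ?_
  rw [map_mul, Complex.conj_conj, mul_comm]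

/-- the vectors `A_a = (∂_a h)^*(D) f` -/
noncomputable def AA (f : MvPolynomial d ℂ) (a : d) : MvPolynomial d ℂ :=
  ∑ i, C ((starRingEnd ℂ) (b i a)) * dL (b (i + 1)) (dL (b (i + 2)) f)

lemma pderiv_L (v : d → ℂ) (a : d) : pderiv a (L v) = C (v a) := by
  rw [L, map_sum, Finset.sum_eq_single a]
  · rw [pderiv_C_mul, pderiv_X_self, mul_one]
  · intro c _ hc
    rw [pderiv_C_mul, pderiv_X_of_ne hc, mul_zero]
  · intro h; exact absurd (Finset.mem_univ _) h

lemma pderiv_hh (a : d) :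
    pderiv a (hh b) = ∑ j, C (b j a) * (L (b (j + 1)) * L (b (j + 2))) := by
  have a11 : (1 : Fin 3) + 1 = 2 := rfl
  have a12 : (1 : Fin 3) + 2 = 0 := rfl
  have a21 : (2 : Fin 3) + 1 = 0 := rfl
  have a22 : (2 : Fin 3) + 2 = 1 := rfl
  rw [hh, pderiv_mul, pderiv_mul, pderiv_L, pderiv_L, pderiv_L]
  simp only [Fin.sum_univ_three, zero_add, a11, a12, a21, a22]
  ring

lemma ip_hh_mul (p q : MvPolynomial d ℂ) :
    ip (hh b * p) q = ip p (dL (b 0) (dL (b 1) (dL (b 2) q))) := by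
  rw [hh]
  have : L (b 0) * L (b 1) * L (b 2) * p = L (b 2) * (L (b 1) * (L (b 0) * p)) := by ring
  rw [this, ip_L_mul, ip_L_mul, ip_L_mul]

/-- permanent of the Gram matrix, explicitly -/
noncomputable def pr : ℂ :=
  gm b 0 0 * gm b 1 1 * gm b 2 2 + gm b 0 0 * gm b 1 2 * gm b 2 1 +
    gm b 0 1 * gm b 1 0 * gm b 2 2 + gm b 0 1 * gm b 1 2 * gm b 2 0 +
    gm b 0 2 * gm b 1 0 * gm b 2 1 + gm b 0 2 * gm b 1 1 * gm b 2 0

lemma ip_hh : ip (hh b) (hh b) = pr b := by
  have h1 := triple_const (fun i => dL (b i)) (fun j => L (b j)) (fun i j => C (gm b i j))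
    (fun i j => dL_L _ _) (fun i j k => dL_C _ _)
  simp only [← C_mul, ← C_add] at h1
  have h2 := ip_hh_mul b 1 (hh b)
  rw [mul_one] at h2
  rw [h2, hh, h1]
  have h3 := ip_C_mul_right (pr b) (1 : MvPolynomial d ℂ) 1
  rw [mul_one, ip_self, N_one] at h3
  simpa [pr] using h3

/-- the exchange identity -/
theorem exchange (f : MvPolynomial d ℂ) :
    2 * N (hh b * f) - ∑ a, N (pderiv a (hh b) * f) =
      2 * N (dL (b 0) (dL (b 1) (dL (b 2) f))) + ∑ a, N (AA b f a) - N (hh b) * N f := by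
  have h1 := normal_order (fun i => dL (b i)) (fun i j p => dL_comm _ _ _) (fun j => L (b j))
    (fun i j => C (gm b i j)) (fun i j => dL_L _ _) (fun i j k => dL_C _ _) f
  have h2 := congrArg (ip f) h1
  rw [ip_sub_right, ip_sub_right, ip_add_right] at h2
  simp only [← C_mul, ← C_add, ip_sum_right, ip_C_mul_right] at h2
  have htwo : ∀ p : MvPolynomial d ℂ, ip f (2 * p) = 2 * ip f p := by
    intro p
    have := ip_C_mul_right 2 f p
    rwa [map_ofNat C 2] at this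
  rw [htwo, htwo] at h2
  -- the four terms
  have t1 : ip f (dL (b 0) (dL (b 1) (dL (b 2) (L (b 0) * L (b 1) * L (b 2) * f)))) =
      (N (hh b * f) : ℂ) := by
    rw [← ip_self, ip_hh_mul]
    rfl
  have t2 : ∑ i, ∑ j, gm b i j * ip f (dL (b (i + 1)) (dL (b (i + 2))
      (L (b (j + 1)) * L (b (j + 2)) * f))) =
      ((∑ a, N (pderiv a (hh b) * f) : ℝ) : ℂ) := by
    push_cast
    have e1 : ∀ a : d, (N (pderiv a (hh b) * f) : ℂ) =
        ∑ i, ∑ j, ((starRingEnd ℂ) (b i a) * b j a) * ip f (dL (b (i + 1)) (dL (b (i + 2))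
          (L (b (j + 1)) * L (b (j + 2)) * f))) := by
      intro a
      rw [← ip_self, pderiv_hh, Finset.sum_mul, ip_sum_left]
      refine Finset.sum_congr rfl fun i _ => ?_
      rw [ip_sum_right]
      refine Finset.sum_congr rfl fun j _ => ?_
      rw [mul_assoc (C _), mul_assoc (C _), ip_C_mul_left, ip_C_mul_right, ← ip_L_mul, ← ip_L_mul]
      rw [show L (b (i + 2)) * (L (b (i + 1)) * f) = L (b (i + 1)) * L (b (i + 2)) * f by ring]
      ring
    simp only [e1]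
    symm
    rw [Finset.sum_comm]
    refine Finset.sum_congr rfl fun i _ => ?_
    rw [Finset.sum_comm]
    refine Finset.sum_congr rfl fun j _ => ?_
    rw [← Finset.sum_mul, gm]
  have t3 : ip f (L (b 0) * L (b 1) * L (b 2) * dL (b 0) (dL (b 1) (dL (b 2) f))) =
      (N (dL (b 0) (dL (b 1) (dL (b 2) f))) : ℂ) := by
    rw [← ip_self]
    rw [show L (b 0) * L (b 1) * L (b 2) * dL (b 0) (dL (b 1) (dL (b 2) f)) =
      L (b 0) * (L (b 1) * (L (b 2) * dL (b 0) (dL (b 1) (dL (b 2) f)))) by ring]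
    rw [← ip_dL_left, ← ip_dL_left, ← ip_dL_left]
    rw [dL_comm (b 2) (b 1), dL_comm (b 2) (b 0), dL_comm (b 1) (b 0) (dL (b 2) f)]
  have t4 : ∑ i, ∑ j, gm b i j * ip f (L (b (j + 1)) * L (b (j + 2)) *
      dL (b (i + 1)) (dL (b (i + 2)) f)) = ((∑ a, N (AA b f a) : ℝ) : ℂ) := by
    push_cast
    have e1 : ∀ a : d, (N (AA b f a) : ℂ) =
        ∑ i, ∑ j, ((starRingEnd ℂ) (b i a) * b j a) * ip f (L (b (j + 1)) * L (b (j + 2)) *
      dL (b (i + 1)) (dL (b (i + 2)) f)) := by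
      intro a
      rw [← ip_self, AA, ip_sum_right]
      refine Finset.sum_congr rfl fun i _ => ?_
      rw [ip_sum_left]
      refine Finset.sum_congr rfl fun j _ => ?_
      rw [ip_C_mul_left, ip_C_mul_right, Complex.conj_conj, mul_assoc (L _), ← ip_dL_left,
        ← ip_dL_left, dL_comm (b (j + 2)) (b (j + 1))]
      ring
    simp only [e1]
    symm
    rw [Finset.sum_comm]
    refine Finset.sum_congr rfl fun i _ => ?_
    rw [Finset.sum_comm]
    refine Finset.sum_congr rfl fun j _ => ?_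
    rw [← Finset.sum_mul, gm]
  rw [t1, t2, t3, t4] at h2
  have h3 : (gm b 0 0 * gm b 1 1 * gm b 2 2 + gm b 0 0 * gm b 1 2 * gm b 2 1 +
    gm b 0 1 * gm b 1 0 * gm b 2 2 + gm b 0 1 * gm b 1 2 * gm b 2 0 +
    gm b 0 2 * gm b 1 0 * gm b 2 1 + gm b 0 2 * gm b 1 1 * gm b 2 0) * ip f f =
      (N (hh b) : ℂ) * N f := by
    rw [← ip_self, ← ip_self, ip_hh]
    rfl
  rw [h3] at h2
  exact_mod_cast h2

/-- `∑ ⟨X a F, A a⟩ = 3 ⟨h F, f⟩` -/
theorem sum_ip_AA (F f : MvPolynomial d ℂ) :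
    ∑ a, ip (X a * F) (AA b f a) = 3 * ip (hh b * F) f := by
  have h1 : ∀ a, ip (X a * F) (AA b f a) = ∑ i, ip F (C ((starRingEnd ℂ) (b i a)) *
      pderiv a (dL (b (i + 1)) (dL (b (i + 2)) f))) := by
    intro a
    rw [ip_X_mul, AA, map_sum, ip_sum_right]
    refine Finset.sum_congr rfl fun i _ => ?_
    rw [pderiv_C_mul]
  simp only [h1]
  rw [Finset.sum_comm]
  have h2 : ∀ i : Fin 3, ∑ a, ip F (C ((starRingEnd ℂ) (b i a)) *
      pderiv a (dL (b (i + 1)) (dL (b (i + 2)) f))) = ip (hh b * F) f := by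
    intro i
    rw [← ip_sum_right, ← dL_apply, ip_hh_mul]
    congr 1
    fin_cases i
    · rfl
    · change dL (b 1) (dL (b 2) (dL (b 0) f)) = _
      rw [dL_comm (b 2) (b 0), dL_comm (b 1) (b 0)]
    · change dL (b 2) (dL (b 0) (dL (b 1) f)) = _
      rw [dL_comm (b 2) (b 0), dL_comm (b 2) (b 1)]
  simp only [h2]
  simp

end three

end Pool.Agent.Work.MP_8d2b2d_co
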