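import Mathlib
import Pool.Agent.Work.MP_8d2b2d_co.Three

/-!
# Pate's inequality for `m = 3`
-/

namespace Pool.Agent.Work.MP_8d2b2d_co

open MvPolynomial Finset Matrix

set_option linter.unusedSectionVars false

lemma isHomogeneous_L {d : Type} [Fintype d] [DecidableEq d] (v : d → ℂ) :
    (L v).IsHomogeneous 1 := by
  refine IsHomogeneous.sum _ _ _ fun c _ => ?_
  have := (isHomogeneous_C d (v c)).mul (isHomogeneous_X ℂ c)
  simpa using this

lemma isHomogeneous_hh (b : Fin 3 → Fin 3 → ℂ) : (hh b).IsHomogeneous 3 :=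
  ((isHomogeneous_L _).mul (isHomogeneous_L _)).mul (isHomogeneous_L _)

/-- Cauchy-Schwarz from the nonnegativity of a quadratic -/
lemma sq_le_of_quad {A B C : ℝ} (h : ∀ t : ℝ, 0 ≤ A - 2 * t * B + t ^ 2 * C) : B ^ 2 ≤ A * C := by
  have h1 := discrim_le_zero (a := C) (b := -2 * B) (c := A) (fun x => by
    have := h x
    linarith [this, show A - 2 * x * B + x ^ 2 * C = C * (x * x) + -2 * B * x + A by ring])
  rw [discrim] at h1
  nlinarith

variable (b : Fin 3 → Fin 3 → ℂ)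

/-- the mean identity -/
lemma mean (k : ℕ) : (k + 1 : ℝ) * ∑ a, N (pderiv a (hh b) * hh b ^ k) =
    3 * N (hh b ^ (k + 1)) := by
  have h1 : ∀ a, pderiv a (hh b ^ (k + 1)) = C ((k + 1 : ℝ) : ℂ) * (pderiv a (hh b) * hh b ^ k) := by
    intro a
    rw [pderiv_pow]
    simp only [Nat.add_sub_cancel]
    have : (C (((k + 1 : ℝ)) : ℂ) : MvPolynomial (Fin 3) ℂ) = ((k + 1 : ℕ) : MvPolynomial (Fin 3) ℂ) := by
      push_cast
      simp
    rw [this]
    ring
  have h2 := sum_N_pderiv ((isHomogeneous_hh b).pow (k + 1))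
  have h3 : ∀ a, N (pderiv a (hh b ^ (k + 1))) =
      (k + 1 : ℝ) ^ 2 * N (pderiv a (hh b) * hh b ^ k) := by
    intro a
    rw [h1, N, ip_C_mul_left, ip_C_mul_right, ip_self, Complex.conj_ofReal, ← Complex.ofReal_mul,
      ← Complex.ofReal_mul, Complex.ofReal_re]
    ring
  simp only [h3] at h2
  rw [← Finset.mul_sum] at h2
  push_cast at h2
  have h4 : (k + 1 : ℝ) ≠ 0 := by positivity
  apply mul_left_cancel₀ h4
  linarith

/-- one step: log-convexity from the inequality at the previous index -/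
lemma logconvex_step (k : ℕ)
    (hP : ((k : ℝ) + 1) ^ 3 * N (hh b) * N (hh b ^ k) ≤ N (hh b ^ (k + 1))) :
    ((k : ℝ) + 2) ^ 3 * N (hh b ^ (k + 1)) ^ 2 ≤
      ((k : ℝ) + 1) ^ 3 * (N (hh b ^ (k + 2)) * N (hh b ^ k)) := by
  set h := hh b with hh'
  set F := h ^ k with hF
  set f := h ^ (k + 1) with hf
  have hFf : h * F = f := by rw [hF, hf, pow_succ']
  have hhf : h * f = h ^ (k + 2) := by rw [hf, ← pow_succ']
  -- O_0
  have h0 : N f ^ 2 ≤ N (dL (b 0) (dL (b 1) (dL (b 2) f))) * N F := by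
    refine sq_le_of_quad fun t => ?_
    have h1 := N_quad (dL (b 0) (dL (b 1) (dL (b 2) f))) F t
    rw [← ip_hh_mul, ← hh', hFf] at h1
    exact h1
  -- O_1
  have h1 : (3 * N f) ^ 2 ≤ (∑ a, N (AA b f a)) * (3 * ((k : ℝ) + 1) * N F) := by
    refine sq_le_of_quad fun t => ?_
    have e1 := Finset.sum_nonneg (s := (Finset.univ : Finset (Fin 3)))
      (fun a _ => N_quad (AA b f a) (X a * F) t)
    rw [Finset.sum_add_distrib, Finset.sum_sub_distrib, ← Finset.mul_sum, ← Finset.mul_sum,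
      sum_N_X_mul ((isHomogeneous_hh b).pow k)] at e1
    have e2 : ∑ a, (ip (X a * F) (AA b f a)).re = 3 * N f := by
      have := congrArg Complex.re (sum_ip_AA b F f)
      rw [Complex.re_sum, ← hh', hFf] at this
      rw [this, ip_self, Complex.mul_re]
      simp
    rw [e2] at e1
    simp only [Fintype.card_fin, Nat.cast_mul, Nat.cast_ofNat] at e1
    have e3 : ((3 : ℝ) * k + 3) * N F = 3 * ((k : ℝ) + 1) * N F := by ring
    rw [e3] at e1
    exact e1
  have h2 := exchange b f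
  have h3 := mean b (k + 1)
  rw [← hh', hhf] at h2
  have h3' : ((k : ℝ) + 2) * ∑ a, N (pderiv a h * f) = 3 * N (h ^ (k + 2)) := by
    rw [← h3]
    push_cast
    ring
  set X := N (h ^ (k + 2)) with hX
  set T := ∑ a, N (pderiv a h * f) with hT
  set O0 := N (dL (b 0) (dL (b 1) (dL (b 2) f))) with hO0
  set O1 := ∑ a, N (AA b f a) with hO1
  have n0 : 0 ≤ N F := N_nonneg _
  have n1 : 0 ≤ N f := N_nonneg _
  have n2 : 0 ≤ N h := N_nonneg _
  set K : ℝ := (k : ℝ) + 1 with hK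
  have hk : 1 ≤ K := by
    rw [hK]
    have : (0 : ℝ) ≤ k := Nat.cast_nonneg k
    linarith
  have hk2 : (k : ℝ) + 2 = K + 1 := by rw [hK]; ring
  rw [hk2] at h3' ⊢
  -- main computation
  have m1 : (2 * K - 1) * X = (K + 1) * (2 * O0 + O1 - N h * N f) := by
    have e1 : 2 * X - T = 2 * O0 + O1 - N h * N f := h2
    rw [← e1, mul_sub, h3']
    ring
  have m2 : 3 * N f ^ 2 ≤ K * (O1 * N F) := by linarith
  have m3 : K ^ 3 * (N h * N F) ≤ N f := by linarith
  have m4 : K ^ 3 * (N h * N f * N F) ≤ N f ^ 2 := by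
    have := mul_le_mul_of_nonneg_left m3 n1
    linarith
  have m5 : (2 * K - 1) * (K + 1) ^ 3 * N f ^ 2 ≤ (2 * K - 1) * (K ^ 3 * (X * N F)) := by
    have e1 : (2 * K - 1) * (K ^ 3 * (X * N F)) =
        (K + 1) * (2 * K ^ 3 * (O0 * N F) + K ^ 2 * (K * (O1 * N F)) -
          K ^ 3 * (N h * N f * N F)) := by
      calc (2 * K - 1) * (K ^ 3 * (X * N F)) = K ^ 3 * N F * ((2 * K - 1) * X) := by ring
        _ = _ := by rw [m1]; ring
    rw [e1]
    have e2 : (2 * K - 1) * (K + 1) ^ 3 * N f ^ 2 =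
        (K + 1) * (2 * K ^ 3 * N f ^ 2 + K ^ 2 * (3 * N f ^ 2) - N f ^ 2) := by ring
    rw [e2]
    have e3 : 2 * K ^ 3 * N f ^ 2 ≤ 2 * K ^ 3 * (O0 * N F) :=
      mul_le_mul_of_nonneg_left h0 (by positivity)
    have e4 : K ^ 2 * (3 * N f ^ 2) ≤ K ^ 2 * (K * (O1 * N F)) :=
      mul_le_mul_of_nonneg_left m2 (by positivity)
    refine mul_le_mul_of_nonneg_left ?_ (by linarith)
    linarith
  have m6 : 0 < 2 * K - 1 := by linarith
  have m7 : (2 * K - 1) * ((K + 1) ^ 3 * N f ^ 2) ≤ (2 * K - 1) * (K ^ 3 * (X * N F)) := by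
    rw [← mul_assoc]; exact m5
  exact le_of_mul_le_mul_left m7 m6

/-- `‖h^(k+1)‖² ≥ (k+1)³ ‖h‖² ‖h^k‖²` -/
lemma pate_step (k : ℕ) :
    ((k : ℝ) + 1) ^ 3 * N (hh b) * N (hh b ^ k) ≤ N (hh b ^ (k + 1)) := by
  induction k with
  | zero => simp [N_one]
  | succ k ih =>
    have h1 := logconvex_step b k ih
    have n0 : 0 ≤ N (hh b ^ k) := N_nonneg _
    have n1 : 0 ≤ N (hh b ^ (k + 1)) := N_nonneg _
    have n2 : 0 ≤ N (hh b) := N_nonneg _
    have n3 : 0 ≤ N (hh b ^ (k + 2)) := N_nonneg _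
    push_cast
    rw [show (k : ℝ) + 1 + 1 = (k : ℝ) + 2 by ring, show k + 1 + 1 = k + 2 by ring]
    rcases n0.lt_or_eq with hpos | hzero
    · have h2 : (k + 2 : ℝ) ^ 3 * N (hh b ^ (k + 1)) *
          (((k : ℝ) + 1) ^ 3 * N (hh b) * N (hh b ^ k)) ≤
          ((k : ℝ) + 1) ^ 3 * (N (hh b ^ (k + 2)) * N (hh b ^ k)) :=
        le_trans (by
          have := mul_le_mul_of_nonneg_left ih
            (show (0 : ℝ) ≤ (k + 2 : ℝ) ^ 3 * N (hh b ^ (k + 1)) by positivity)
          refine this.trans (le_of_eq ?_)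
          ring) h1
      have h3 : (0 : ℝ) < ((k : ℝ) + 1) ^ 3 * N (hh b ^ k) := by positivity
      refine le_of_mul_le_mul_left ?_ h3
      linarith
    · rw [← hzero, mul_zero, mul_zero] at h1
      have h2 : N (hh b ^ (k + 1)) = 0 := by
        have h3 : (0 : ℝ) < ((k : ℝ) + 2) ^ 3 := by positivity
        have h4 : N (hh b ^ (k + 1)) ^ 2 ≤ 0 := by
          by_contra hc
          push Not at hc
          have := mul_pos h3 hc
          linarith
        exact pow_eq_zero_iff (two_ne_zero) |>.1 (le_antisymm h4 (sq_nonneg _))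
      rw [h2, mul_zero]
      exact n3

lemma pate_pow (k : ℕ) : ((k.factorial : ℝ)) ^ 3 * N (hh b) ^ k ≤ N (hh b ^ k) := by
  induction k with
  | zero => simp [N_one]
  | succ k ih =>
    refine le_trans ?_ (pate_step b k)
    rw [Nat.factorial_succ]
    push_cast
    have n2 : 0 ≤ N (hh b) := N_nonneg _
    calc (((k : ℝ) + 1) * (k.factorial : ℝ)) ^ 3 * N (hh b) ^ (k + 1)
        = ((k : ℝ) + 1) ^ 3 * N (hh b) * ((k.factorial : ℝ) ^ 3 * N (hh b) ^ k) := by ring
      _ ≤ _ := mul_le_mul_of_nonneg_left ih (by positivity)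

end Pool.Agent.Work.MP_8d2b2d_co

namespace Pool.Agent.Work.MP_8d2b2d_co

open scoped MatrixOrder ComplexOrder in
lemma exists_conjTranspose_mul {n : Type} [Fintype n] [DecidableEq n] {M : Matrix n n ℂ}
    (hM : M.PosSemidef) : ∃ B : Matrix n n ℂ, M = B.conjTranspose * B := by
  obtain ⟨B, hB⟩ := CStarAlgebra.nonneg_iff_eq_star_mul_self.mp hM.nonneg
  exact ⟨B, hB⟩

end Pool.Agent.Work.MP_8d2b2d_co
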