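import Mathlib

/-!
# The permanent of a Gram matrix of vectors in `ℂ³`
-/

namespace Pool.Agent.Work.MP_8d2b2d_co

open Finset Polynomial

section count

variable {ι κ : Type*} [Fintype ι] [DecidableEq ι] [Fintype κ] [DecidableEq κ]

/-- permutations carrying a colouring to another one -/
def permEquiv (c c' : ι → κ) : {σ : Equiv.Perm ι // c ∘ σ = c'} ≃
    (∀ a, ({x // c' x = a} ≃ {x // c x = a})) where
  toFun σ a :=
    { toFun := fun x => ⟨σ.1 x.1, (congrFun σ.2 x.1).trans x.2⟩
      invFun := fun y => ⟨σ.1.symm y.1,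
        (congrFun σ.2 (σ.1.symm y.1)).symm.trans (by simp [y.2])⟩
      left_inv := fun x => by simp
      right_inv := fun y => by simp }
  invFun e := ⟨Equiv.ofFiberEquiv e, by
    funext x
    exact Equiv.ofFiberEquiv_map e x⟩
  left_inv := fun σ => by
    apply Subtype.ext
    ext x
    rfl
  right_inv := fun e => by
    funext a
    ext x
    obtain ⟨x, rfl⟩ := x
    rfl

/-- content of a colouring -/
def nn (c : ι → κ) (a : κ) : ℕ := #{x | c x = a}

omit [DecidableEq ι] [Fintype κ] in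
lemma nn_eq (c : ι → κ) (a : κ) : nn c a = Fintype.card {x // c x = a} := by
  rw [nn, Fintype.card_subtype]

lemma card_perm (c c' : ι → κ) (h : ∀ a, nn c a = nn c' a) :
    Fintype.card {σ : Equiv.Perm ι // c ∘ σ = c'} = ∏ a, (nn c a).factorial := by
  rw [Fintype.card_congr (permEquiv c c'), Fintype.card_pi]
  apply Finset.prod_congr rfl
  intro a _
  have h1 : Fintype.card {x // c' x = a} = Fintype.card {x // c x = a} := by
    rw [← nn_eq, ← nn_eq, h a]
  rw [Fintype.card_equiv (Fintype.equivOfCardEq h1), h1, ← nn_eq]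

lemma nn_comp (c : ι → κ) (σ : Equiv.Perm ι) (a : κ) : nn (c ∘ σ) a = nn c a := by
  rw [nn_eq, nn_eq]
  exact Fintype.card_congr (σ.subtypeEquiv (fun x => Iff.rfl))

lemma sum_perm {R : Type*} [CommSemiring R] (F : (ι → κ) → R) (c : ι → κ) :
    ∑ σ : Equiv.Perm ι, F (c ∘ σ) =
      ∑ c' : ι → κ, if (∀ a, nn c a = nn c' a) then
        ((∏ a, (nn c a).factorial : ℕ) : R) * F c' else 0 := by
  have h1 : ∑ σ : Equiv.Perm ι, F (c ∘ σ) =
      ∑ c' : ι → κ, ∑ σ ∈ univ.filter (fun σ : Equiv.Perm ι => c ∘ σ = c'), F (c ∘ σ) :=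
    (Finset.sum_fiberwise univ (fun σ : Equiv.Perm ι => c ∘ ⇑σ) (fun σ => F (c ∘ σ))).symm
  rw [h1]
  apply Finset.sum_congr rfl
  intro c' _
  have h2 : ∑ σ ∈ univ.filter (fun σ : Equiv.Perm ι => c ∘ σ = c'), F (c ∘ σ) =
      ∑ σ ∈ univ.filter (fun σ : Equiv.Perm ι => c ∘ σ = c'), F c' := by
    apply Finset.sum_congr rfl
    intro σ hσ
    rw [mem_filter] at hσ
    rw [hσ.2]
  rw [h2, Finset.sum_const, nsmul_eq_mul, ← Fintype.card_subtype]
  split_ifs with h
  · rw [card_perm c c' h]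
  · have : IsEmpty {σ : Equiv.Perm ι // c ∘ σ = c'} := by
      constructor
      rintro ⟨σ, rfl⟩
      exact h (fun a => (nn_comp c σ a).symm)
    rw [Fintype.card_eq_zero]
    simp

end count

variable {ι : Type*} [Fintype ι] [DecidableEq ι]

/-- generating polynomial of the colourings -/
noncomputable def GP (A : ι → Fin 3 → ℂ) : ℂ[X][X] :=
  ∏ i, (C (C (A i 0) * X + C (A i 1)) + C (C (A i 2)) * X)

omit [DecidableEq ι] in
lemma nn_sum (c : ι → Fin 3) : nn c 0 + nn c 1 + nn c 2 = Fintype.card ι := by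
  have h := Finset.card_eq_sum_card_fiberwise (s := (univ : Finset ι)) (t := (univ : Finset (Fin 3)))
    (f := c) (fun x _ => by simp)
  rw [Fin.sum_univ_three, card_univ] at h
  exact h.symm

lemma GP_coeff (A : ι → Fin 3 → ℂ) (l m : ℕ) :
    ((GP A).coeff l).coeff m =
      ∑ c : ι → Fin 3 with nn c 2 = l ∧ nn c 0 = m, ∏ i, A i (c i) := by
  let g : Fin 3 → ℂ[X][X] := ![C X, 1, X]
  have h1 : GP A = ∑ c : ι → Fin 3, C (C (∏ i, A i (c i))) * (C (X ^ nn c 0) * X ^ nn c 2) := by
    unfold GP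
    have e1 : ∀ i, (C (C (A i 0) * X + C (A i 1)) + C (C (A i 2)) * X : ℂ[X][X]) =
        ∑ a : Fin 3, C (C (A i a)) * g a := by
      intro i
      rw [Fin.sum_univ_three]
      simp only [g, Matrix.cons_val_zero, Matrix.cons_val_one, Matrix.cons_val_two,
        Matrix.head_cons, Matrix.tail_cons, mul_one, C_add, C_mul]
    rw [Finset.prod_congr rfl (fun i _ => e1 i), Finset.prod_univ_sum]
    rw [Fintype.piFinset_univ]
    apply Finset.sum_congr rfl
    intro c _
    rw [Finset.prod_mul_distrib]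
    congr 1
    · rw [map_prod, map_prod]
    · have e2 : ∏ i, g (c i) = ∏ a : Fin 3, g a ^ nn c a := by
        rw [← Finset.prod_fiberwise univ c (fun i => g (c i))]
        apply Finset.prod_congr rfl
        intro a _
        rw [Finset.prod_congr rfl (g := fun _ => g a) (by
          intro i hi
          rw [mem_filter] at hi
          rw [hi.2]), Finset.prod_const]
        rfl
      rw [e2, Fin.prod_univ_three]
      show (C X : ℂ[X][X]) ^ nn c 0 * 1 ^ nn c 1 * X ^ nn c 2 = _
      rw [one_pow, mul_one, C_pow]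
  rw [h1]
  rw [finsetSum_coeff, finsetSum_coeff, Finset.sum_filter]
  apply Finset.sum_congr rfl
  intro c _
  rw [coeff_C_mul, coeff_C_mul, coeff_C_mul, coeff_X_pow]
  by_cases h2 : nn c 2 = l
  · rw [if_pos h2.symm, mul_one, coeff_X_pow]
    by_cases h0 : nn c 0 = m
    · rw [if_pos h0.symm, if_pos ⟨h2, h0⟩, mul_one]
    · rw [if_neg (fun h => h0 h.symm), if_neg (fun h => h0 h.2), mul_zero]
  · rw [if_neg (fun h => h2 h.symm), if_neg (fun h => h2 h.1)]
    simp

/-- the permanent of a Gram matrix -/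
theorem permanent_gram (A : ι → Fin 3 → ℂ) :
    (Matrix.of (fun i j => ∑ c, A i c * (starRingEnd ℂ) (A j c))).permanent =
      ((∑ l ∈ range (Fintype.card ι + 1), ∑ m ∈ range (Fintype.card ι + 1 - l),
        (m.factorial * (Fintype.card ι - l - m).factorial * l.factorial : ℝ) *
          ‖((GP A).coeff l).coeff m‖ ^ 2 : ℝ) : ℂ) := by
  set n := Fintype.card ι with hn
  let F : (ι → Fin 3) → ℂ := fun c => ∏ i, A i (c i)
  have h1 : (Matrix.of (fun i j => ∑ c, A i c * (starRingEnd ℂ) (A j c))).permanent =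
      ∑ c : ι → Fin 3, (starRingEnd ℂ) (F c) * ∑ σ : Equiv.Perm ι, F (c ∘ σ) := by
    unfold Matrix.permanent
    simp only [Matrix.of_apply]
    have e1 : ∀ σ : Equiv.Perm ι, ∏ i, ∑ c, A (σ i) c * (starRingEnd ℂ) (A i c) =
        ∑ c : ι → Fin 3, (starRingEnd ℂ) (F c) * F (c ∘ σ.symm) := by
      intro σ
      rw [Finset.prod_univ_sum, Fintype.piFinset_univ]
      apply Finset.sum_congr rfl
      intro c _
      rw [Finset.prod_mul_distrib, mul_comm]
      congr 1
      · rw [map_prod]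
      · show ∏ i, A (σ i) (c i) = ∏ i, A i ((c ∘ σ.symm) i)
        rw [← Equiv.prod_comp σ (fun i => A i ((c ∘ σ.symm) i))]
        simp
    rw [Finset.sum_congr rfl (fun σ _ => e1 σ), Finset.sum_comm]
    apply Finset.sum_congr rfl
    intro c _
    rw [← Finset.mul_sum]
    congr 1
    exact Equiv.sum_comp (Equiv.inv (Equiv.Perm ι)) (fun σ : Equiv.Perm ι => F (c ∘ σ))
  rw [h1]
  -- grouping by the content
  let W : ℕ → ℕ → ℂ := fun l m =>
    ((m.factorial * (n - l - m).factorial * l.factorial : ℕ) : ℂ)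
  have h2 : ∀ c : ι → Fin 3, ∑ σ : Equiv.Perm ι, F (c ∘ σ) =
      W (nn c 2) (nn c 0) * ((GP A).coeff (nn c 2)).coeff (nn c 0) := by
    intro c
    rw [sum_perm F c, GP_coeff, Finset.mul_sum, Finset.sum_filter]
    apply Finset.sum_congr rfl
    intro c' _
    have hc := nn_sum c
    have hc' := nn_sum c'
    by_cases h : nn c' 2 = nn c 2 ∧ nn c' 0 = nn c 0
    · rw [if_pos h, if_pos]
      · congr 1
        rw [Fin.prod_univ_three]
        have : nn c 1 = n - nn c 2 - nn c 0 := by omega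
        rw [this]
      · intro a
        fin_cases a
        · exact h.2.symm
        · show nn c 1 = nn c' 1
          omega
        · exact h.1.symm
    · rw [if_neg h, if_neg]
      intro h'
      exact h ⟨(h' 2).symm, (h' 0).symm⟩
  rw [Finset.sum_congr rfl (fun c _ => by rw [h2 c])]
  have h3 : ∀ l m : ℕ, W l m * (‖((GP A).coeff l).coeff m‖ ^ 2 : ℝ) =
      ∑ c : ι → Fin 3 with nn c 2 = l ∧ nn c 0 = m,
        (starRingEnd ℂ) (F c) * (W (nn c 2) (nn c 0) * ((GP A).coeff (nn c 2)).coeff (nn c 0)) := by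
    intro l m
    have e : ∑ c : ι → Fin 3 with nn c 2 = l ∧ nn c 0 = m,
        (starRingEnd ℂ) (F c) * (W (nn c 2) (nn c 0) * ((GP A).coeff (nn c 2)).coeff (nn c 0)) =
        ∑ c : ι → Fin 3 with nn c 2 = l ∧ nn c 0 = m,
        (starRingEnd ℂ) (F c) * (W l m * ((GP A).coeff l).coeff m) := by
      apply Finset.sum_congr rfl
      intro c hc
      rw [mem_filter] at hc
      rw [hc.2.1, hc.2.2]
    rw [e, ← Finset.sum_mul, ← map_sum]
    have e2 : ∑ c : ι → Fin 3 with nn c 2 = l ∧ nn c 0 = m, F c =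
        ((GP A).coeff l).coeff m := (GP_coeff A l m).symm
    rw [e2]
    have e3 : (starRingEnd ℂ) (((GP A).coeff l).coeff m) * ((GP A).coeff l).coeff m =
        ((‖((GP A).coeff l).coeff m‖ ^ 2 : ℝ) : ℂ) := by
      rw [Complex.ofReal_pow, ← Complex.conj_mul']
    rw [← e3]
    ring
  have h4 : ∑ c : ι → Fin 3, (starRingEnd ℂ) (F c) *
      (W (nn c 2) (nn c 0) * ((GP A).coeff (nn c 2)).coeff (nn c 0)) =
      ∑ l ∈ range (n + 1), ∑ m ∈ range (n + 1 - l),
        W l m * (‖((GP A).coeff l).coeff m‖ ^ 2 : ℝ) := by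
    rw [← Finset.sum_fiberwise_of_maps_to (s := (univ : Finset (ι → Fin 3)))
      (t := range (n + 1)) (g := fun c => nn c 2) (fun c _ => by
        have := nn_sum c
        rw [mem_range]
        omega)]
    apply Finset.sum_congr rfl
    intro l _
    rw [← Finset.sum_fiberwise_of_maps_to (s := (univ.filter (fun c : ι → Fin 3 => nn c 2 = l)))
      (t := range (n + 1 - l)) (g := fun c => nn c 0) (fun c hc => by
        have := nn_sum c
        rw [mem_filter] at hc
        rw [mem_range]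
        omega)]
    apply Finset.sum_congr rfl
    intro m _
    rw [h3 l m, Finset.filter_filter]
  rw [h4]
  simp only [W]
  push_cast
  rfl

end Pool.Agent.Work.MP_8d2b2d_co
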