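import Pool.Agent.Work.MP_8d2b2d_co.E4

/-!
# The inequality for real Gaussian variables
-/

namespace Pool.Agent.Work.MP_8d2b2d_co

open MvPolynomial

/-! ### geometric series -/

/-- `1/(1 - x t)` -/
noncomputable def geo (x : ℝ) : PowerSeries ℝ := PowerSeries.mk (fun n => x ^ n)

lemma coeff_C_mul_X_mul (x : ℝ) (f : PowerSeries ℝ) (n : ℕ) :
    PowerSeries.coeff (n + 1) (PowerSeries.C x * PowerSeries.X * f) =
      x * PowerSeries.coeff n f := by
  rw [mul_assoc, PowerSeries.coeff_C_mul, PowerSeries.coeff_succ_X_mul]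

lemma geo_eq (x : ℝ) : geo x = 1 + PowerSeries.C x * PowerSeries.X * geo x := by
  ext n
  cases n with
  | zero => simp [geo]
  | succ n =>
    rw [map_add, coeff_C_mul_X_mul, geo, PowerSeries.coeff_mk, PowerSeries.coeff_mk,
      PowerSeries.coeff_one]
    simp [pow_succ']

/-- a sequence defined by a first order recursion -/
lemma geo_rec {x : ℝ} {f g : ℕ → ℝ} (h0 : g 0 = f 0) (h : ∀ n, g (n + 1) = x * g n + f (n + 1)) :
    PowerSeries.mk g = geo x * PowerSeries.mk f := by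
  have h1 : PowerSeries.mk g = PowerSeries.mk f + PowerSeries.C x * PowerSeries.X *
      PowerSeries.mk g := by
    ext n
    cases n with
    | zero => simp [h0]
    | succ n =>
      rw [map_add, coeff_C_mul_X_mul, PowerSeries.coeff_mk, PowerSeries.coeff_mk,
        PowerSeries.coeff_mk, h n]
      ring
  have h2 := geo_eq x
  linear_combination (geo x) * h1 - (PowerSeries.mk g) * h2

lemma geo_mul_geo (x y : ℝ) : PowerSeries.C (x - y) * (geo x * geo y) =
    PowerSeries.C x * geo x - PowerSeries.C y * geo y := by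
  have h1 := geo_eq x
  have h2 := geo_eq y
  rw [map_sub]
  linear_combination (-(PowerSeries.C y * geo y)) * h1 + (PowerSeries.C x * geo x) * h2

/-- even coefficients are nonnegative -/
def EPos (f : PowerSeries ℝ) : Prop := ∀ k, 0 ≤ PowerSeries.coeff (2 * k) f

lemma EPos.add {f g : PowerSeries ℝ} (hf : EPos f) (hg : EPos g) : EPos (f + g) := by
  intro k
  rw [map_add]
  exact add_nonneg (hf k) (hg k)

lemma EPos.smul {f : PowerSeries ℝ} {c : ℝ} (hc : 0 ≤ c) (hf : EPos f) :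
    EPos (PowerSeries.C c * f) := by
  intro k
  rw [PowerSeries.coeff_C_mul]
  exact mul_nonneg hc (hf k)

lemma nonneg_prod (L : Multiset ℝ) (h : ∀ x ∈ L, 0 ≤ x) (n : ℕ) :
    0 ≤ PowerSeries.coeff n (L.map geo).prod := by
  induction L using Multiset.induction_on generalizing n with
  | empty =>
    rw [Multiset.map_zero, Multiset.prod_zero, PowerSeries.coeff_one]
    split_ifs <;> norm_num
  | cons x L ih =>
    rw [Multiset.map_cons, Multiset.prod_cons, PowerSeries.coeff_mul]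
    apply Finset.sum_nonneg
    intro p _
    apply mul_nonneg
    · rw [geo, PowerSeries.coeff_mk]
      exact pow_nonneg (h x (Multiset.mem_cons_self x L)) _
    · exact ih (fun y hy => h y (Multiset.mem_cons_of_mem hy)) _

lemma alt_prod (L : Multiset ℝ) (h : ∀ x ∈ L, x ≤ 0) (n : ℕ) :
    0 ≤ (-1) ^ n * PowerSeries.coeff n (L.map geo).prod := by
  induction L using Multiset.induction_on generalizing n with
  | empty =>
    rw [Multiset.map_zero, Multiset.prod_zero, PowerSeries.coeff_one]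
    split_ifs with h0
    · subst h0; norm_num
    · norm_num
  | cons x L ih =>
    rw [Multiset.map_cons, Multiset.prod_cons, PowerSeries.coeff_mul, Finset.mul_sum]
    apply Finset.sum_nonneg
    intro p hp
    rw [Finset.mem_antidiagonal] at hp
    have e : (-1 : ℝ) ^ n * (PowerSeries.coeff p.1 (geo x) *
        PowerSeries.coeff p.2 (Multiset.map geo L).prod) = (-x) ^ p.1 *
        ((-1) ^ p.2 * PowerSeries.coeff p.2 (Multiset.map geo L).prod) := by
      rw [geo, PowerSeries.coeff_mk, ← hp, pow_add, neg_pow x p.1]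
      ring
    rw [e]
    apply mul_nonneg
    · apply pow_nonneg
      have := h x (Multiset.mem_cons_self x L)
      linarith
    · exact ih (fun y hy => h y (Multiset.mem_cons_of_mem hy)) _

/-- the even coefficients of a product of geometric series are nonnegative -/
theorem epos_prod (L : Multiset ℝ) : EPos (L.map geo).prod := by
  induction hn : Multiset.card L using Nat.strong_induction_on generalizing L with
  | _ n ih =>
    by_cases h1 : ∀ x ∈ L, 0 ≤ x
    · exact fun k => nonneg_prod L h1 _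
    by_cases h2 : ∀ x ∈ L, x ≤ 0
    · intro k
      have := alt_prod L h2 (2 * k)
      rwa [pow_mul, neg_one_sq, one_pow, one_mul] at this
    simp only [not_forall, not_le] at h1 h2
    obtain ⟨y, hy, hy0⟩ := h1
    obtain ⟨x, hx, hx0⟩ := h2
    obtain ⟨L1, rfl⟩ := Multiset.exists_cons_of_mem hx
    have hy' : y ∈ L1 := by
      rcases Multiset.mem_cons.1 hy with h | h
      · exfalso; linarith
      · exact h
    obtain ⟨L2, rfl⟩ := Multiset.exists_cons_of_mem hy'
    rw [Multiset.card_cons, Multiset.card_cons] at hn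
    have i1 := ih (Multiset.card (x ::ₘ L2)) (by rw [Multiset.card_cons]; omega) (x ::ₘ L2) rfl
    have i2 := ih (Multiset.card (y ::ₘ L2)) (by rw [Multiset.card_cons]; omega) (y ::ₘ L2) rfl
    rw [Multiset.map_cons, Multiset.prod_cons] at i1 i2
    rw [Multiset.map_cons, Multiset.prod_cons, Multiset.map_cons, Multiset.prod_cons]
    have hxy : 0 < x - y := by linarith
    have e : geo x * (geo y * (L2.map geo).prod) =
        PowerSeries.C (x / (x - y)) * (geo x * (L2.map geo).prod) +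
          PowerSeries.C (-y / (x - y)) * (geo y * (L2.map geo).prod) := by
      have h3 := geo_mul_geo x y
      have h4 : PowerSeries.C ((x - y)⁻¹) * PowerSeries.C (x - y) = 1 := by
        rw [← map_mul, inv_mul_cancel₀ hxy.ne', map_one]
      have h5 : PowerSeries.C (x / (x - y)) = PowerSeries.C x * PowerSeries.C ((x - y)⁻¹) := by
        rw [← map_mul, div_eq_mul_inv]
      have h6 : PowerSeries.C (-y / (x - y)) =
          -(PowerSeries.C y * PowerSeries.C ((x - y)⁻¹)) := by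
        rw [← map_mul, div_eq_mul_inv, neg_mul, map_neg]
      rw [h5, h6]
      linear_combination (PowerSeries.C ((x - y)⁻¹) * (L2.map geo).prod) * h3 -
        (geo x * geo y * (L2.map geo).prod) * h4
    rw [e]
    exact (i1.smul (by positivity)).add (i2.smul (div_nonneg (by linarith) hxy.le))

/-- combinations of products of geometric series -/
def TP (f : PowerSeries ℝ) : Prop := ∀ L : Multiset ℝ, EPos (f * (L.map geo).prod)

lemma TP_one : TP 1 := fun L => by rw [one_mul]; exact epos_prod L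

lemma TP.add {f g : PowerSeries ℝ} (hf : TP f) (hg : TP g) : TP (f + g) := fun L => by
  rw [add_mul]; exact (hf L).add (hg L)

lemma TP.smul {f : PowerSeries ℝ} {c : ℝ} (hc : 0 ≤ c) (hf : TP f) :
    TP (PowerSeries.C c * f) := fun L => by
  rw [mul_assoc]; exact (hf L).smul hc

lemma TP.geo {f : PowerSeries ℝ} (hf : TP f) (x : ℝ) : TP (geo x * f) := fun L => by
  have := hf (x ::ₘ L)
  rw [Multiset.map_cons, Multiset.prod_cons] at this
  rw [show Pool.Agent.Work.MP_8d2b2d_co.geo x * f * (L.map Pool.Agent.Work.MP_8d2b2d_co.geo).prod =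
    f * (Pool.Agent.Work.MP_8d2b2d_co.geo x * (L.map Pool.Agent.Work.MP_8d2b2d_co.geo).prod) by ring]
  exact this

lemma TP_zero : TP 0 := fun L => by
  intro k
  simp

lemma TP.sum {ι : Type*} (s : Finset ι) (f : ι → PowerSeries ℝ) (h : ∀ i ∈ s, TP (f i)) :
    TP (∑ i ∈ s, f i) := by
  classical
  induction s using Finset.induction_on with
  | empty => rw [Finset.sum_empty]; exact TP_zero
  | insert a s ha ih =>
    rw [Finset.sum_insert ha]
    exact (h a (Finset.mem_insert_self a s)).add (ih (fun i hi => h i (Finset.mem_insert_of_mem hi)))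

/-! ### the moments -/

/-- the quadratic form -/
noncomputable def RR (A : Fin 4 → ℝ) : MvPolynomial (Fin 4) ℝ := ∑ l, C (A l) * X l ^ 2

/-- the linear form -/
noncomputable def LL (v : Fin 4 → ℝ) : MvPolynomial (Fin 4) ℝ := ∑ l, C (v l) * X l

lemma pderiv_RR (A : Fin 4 → ℝ) (l : Fin 4) : pderiv l (RR A) = C (2 * A l) * X l := by
  rw [RR, map_sum, Finset.sum_eq_single l]
  · rw [pderiv_C_mul, pderiv_pow, pderiv_X_self, C_mul]
    simp
    ring
  · intro j _ hj
    rw [pderiv_C_mul, pderiv_pow, pderiv_X_of_ne hj, mul_zero, mul_zero]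
  · intro h
    exact absurd (Finset.mem_univ l) h

lemma pderiv_LL (v : Fin 4 → ℝ) (l : Fin 4) : pderiv l (LL v) = C (v l) := by
  rw [LL, map_sum, Finset.sum_eq_single l]
  · rw [pderiv_C_mul, pderiv_X_self, mul_one]
  · intro j _ hj
    rw [pderiv_C_mul, pderiv_X_of_ne hj, mul_zero]
  · intro h
    exact absurd (Finset.mem_univ l) h

/-- normalised moments -/
noncomputable def ph (A v : Fin 4 → ℝ) (s n : ℕ) : ℝ :=
  EE ℝ (RR A ^ n * LL v ^ (2 * s)) / n.factorial

/-- auxiliary moments -/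
noncomputable def ps (A v : Fin 4 → ℝ) (l : Fin 4) (s n : ℕ) : ℝ :=
  EE ℝ (X l * (RR A ^ n * LL v ^ (2 * s + 1))) / n.factorial

lemma ps_zero (A v : Fin 4 → ℝ) (l : Fin 4) (s : ℕ) :
    ps A v l s 0 = (2 * s + 1) * v l * ph A v s 0 := by
  unfold ps ph
  rw [EE_X_mul, pow_zero, one_mul, one_mul, pderiv_pow, pderiv_LL, Nat.add_sub_cancel]
  have e : ((2 * s + 1 : ℕ) : MvPolynomial (Fin 4) ℝ) * LL v ^ (2 * s) * C (v l) =
      C ((2 * s + 1) * v l) * LL v ^ (2 * s) := by
    rw [C_mul, show ((2 * (s : ℝ) + 1)) = ((2 * s + 1 : ℕ) : ℝ) by push_cast; ring, map_natCast]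
    ring
  rw [e, ← smul_eq_C_mul, map_smul, smul_eq_mul]
  ring

lemma ps_succ (A v : Fin 4 → ℝ) (l : Fin 4) (s n : ℕ) :
    ps A v l s (n + 1) = 2 * A l * ps A v l s n + (2 * s + 1) * v l * ph A v s (n + 1) := by
  unfold ps ph
  rw [EE_X_mul, pderiv_mul, pderiv_pow, pderiv_pow, pderiv_LL, pderiv_RR, Nat.add_sub_cancel,
    Nat.add_sub_cancel]
  have e : ((n + 1 : ℕ) : MvPolynomial (Fin 4) ℝ) * RR A ^ n * (C (2 * A l) * X l) *
        LL v ^ (2 * s + 1) + RR A ^ (n + 1) * (((2 * s + 1 : ℕ) : MvPolynomial (Fin 4) ℝ) *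
        LL v ^ (2 * s) * C (v l)) =
      C ((n + 1) * (2 * A l)) * (X l * (RR A ^ n * LL v ^ (2 * s + 1))) +
      C ((2 * s + 1) * v l) * (RR A ^ (n + 1) * LL v ^ (2 * s)) := by
    rw [C_mul, C_mul (a := (2 * (s : ℝ) + 1)), show ((2 * (s : ℝ) + 1)) =
      ((2 * s + 1 : ℕ) : ℝ) by push_cast; ring, map_natCast, show ((n : ℝ) + 1) =
      ((n + 1 : ℕ) : ℝ) by push_cast; ring, map_natCast]
    ring
  rw [e, map_add, ← smul_eq_C_mul, ← smul_eq_C_mul, map_smul, map_smul, smul_eq_mul, smul_eq_mul]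
  rw [Nat.factorial_succ]
  have h1 : ((n.factorial : ℕ) : ℝ) ≠ 0 := by exact_mod_cast Nat.factorial_ne_zero n
  have h2 : ((n : ℝ) + 1) ≠ 0 := by positivity
  push_cast
  field_simp

lemma ph_succ (A v : Fin 4 → ℝ) (s n : ℕ) :
    ph A v (s + 1) n = ∑ l, v l * ps A v l s n := by
  unfold ps ph
  have e : RR A ^ n * LL v ^ (2 * (s + 1)) =
      ∑ l, C (v l) * (X l * (RR A ^ n * LL v ^ (2 * s + 1))) := by
    rw [show 2 * (s + 1) = (2 * s + 1) + 1 by ring, pow_succ (LL v) (2 * s + 1)]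
    nth_rewrite 2 [LL]
    rw [Finset.mul_sum, Finset.mul_sum]
    apply Finset.sum_congr rfl
    intro l _
    ring
  rw [e, map_sum, Finset.sum_div]
  apply Finset.sum_congr rfl
  intro l _
  rw [← smul_eq_C_mul, map_smul, smul_eq_mul]
  ring

/-- the series `∑ v_l²/(1 - 2 A_l t)` -/
noncomputable def Wser (A v : Fin 4 → ℝ) : PowerSeries ℝ :=
  ∑ l, PowerSeries.C (v l ^ 2) * geo (2 * A l)

lemma Ph_succ (A v : Fin 4 → ℝ) (s : ℕ) :
    PowerSeries.mk (ph A v (s + 1)) =
      PowerSeries.C (2 * (s : ℝ) + 1) * (Wser A v * PowerSeries.mk (ph A v s)) := by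
  have h1 : ∀ l, PowerSeries.mk (ps A v l s) = geo (2 * A l) *
      PowerSeries.mk (fun n => (2 * s + 1) * v l * ph A v s n) := by
    intro l
    exact geo_rec (ps_zero A v l s) (ps_succ A v l s)
  have h2 : ∀ l, PowerSeries.mk (fun n => (2 * (s : ℝ) + 1) * v l * ph A v s n) =
      PowerSeries.C (2 * (s : ℝ) + 1) * (PowerSeries.C (v l) * PowerSeries.mk (ph A v s)) := by
    intro l
    ext n
    rw [PowerSeries.coeff_C_mul, PowerSeries.coeff_C_mul, PowerSeries.coeff_mk,
      PowerSeries.coeff_mk]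
    ring
  have h3 : PowerSeries.mk (ph A v (s + 1)) =
      ∑ l, PowerSeries.C (v l) * PowerSeries.mk (ps A v l s) := by
    ext n
    rw [PowerSeries.coeff_mk, ph_succ, map_sum]
    apply Finset.sum_congr rfl
    intro l _
    rw [PowerSeries.coeff_C_mul, PowerSeries.coeff_mk]
  rw [h3, Wser, Finset.sum_mul, Finset.mul_sum]
  apply Finset.sum_congr rfl
  intro l _
  rw [h1, h2, sq, map_mul]
  ring

/-- product formula -/
lemma Ph_eq (A v : Fin 4 → ℝ) (s : ℕ) : ∃ F : PowerSeries ℝ, TP F ∧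
    PowerSeries.mk (ph A v s) = F * PowerSeries.mk (ph A v 0) := by
  induction s with
  | zero => exact ⟨1, TP_one, (one_mul _).symm⟩
  | succ s ih =>
    obtain ⟨F, hF, e⟩ := ih
    refine ⟨PowerSeries.C (2 * (s : ℝ) + 1) * (Wser A v * F), ?_, ?_⟩
    · apply TP.smul (by positivity)
      rw [Wser, Finset.sum_mul]
      apply TP.sum
      intro l _
      rw [mul_assoc]
      exact (hF.geo _).smul (sq_nonneg _)
    · rw [Ph_succ, e]
      ring

/-! ### the base case -/

/-- the coefficients of the quadratic form -/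
def Aab (x y : ℝ) : Fin 4 → ℝ := ![x, -x, y, -y]

/-- second moments -/
noncomputable def xi (A : Fin 4 → ℝ) (l : Fin 4) (n : ℕ) : ℝ :=
  EE ℝ (X l * (X l * RR A ^ n)) / n.factorial

lemma ph_zero_eq (A v : Fin 4 → ℝ) (n : ℕ) : ph A v 0 n = EE ℝ (RR A ^ n) / n.factorial := by
  unfold ph
  rw [mul_zero, pow_zero, mul_one]

lemma xi_zero (A v : Fin 4 → ℝ) (l : Fin 4) : xi A l 0 = ph A v 0 0 := by
  rw [ph_zero_eq]
  unfold xi
  rw [EE_X_mul, pow_zero, mul_one, pderiv_X_self]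

lemma xi_succ (A v : Fin 4 → ℝ) (l : Fin 4) (n : ℕ) :
    xi A l (n + 1) = 2 * A l * xi A l n + ph A v 0 (n + 1) := by
  rw [ph_zero_eq]
  unfold xi
  rw [EE_X_mul, pderiv_mul, pderiv_pow, pderiv_RR, pderiv_X_self, Nat.add_sub_cancel, one_mul]
  have e : RR A ^ (n + 1) + X l * (((n + 1 : ℕ) : MvPolynomial (Fin 4) ℝ) * RR A ^ n *
      (C (2 * A l) * X l)) =
      RR A ^ (n + 1) + C ((n + 1) * (2 * A l)) * (X l * (X l * RR A ^ n)) := by
    rw [C_mul, show ((n : ℝ) + 1) = ((n + 1 : ℕ) : ℝ) by push_cast; ring, map_natCast]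
    ring
  rw [e, map_add, ← smul_eq_C_mul, map_smul, smul_eq_mul, Nat.factorial_succ]
  have h1 : ((n.factorial : ℕ) : ℝ) ≠ 0 := by exact_mod_cast Nat.factorial_ne_zero n
  have h2 : ((n : ℝ) + 1) ≠ 0 := by positivity
  push_cast
  field_simp
  ring

lemma ph_rec (A v : Fin 4 → ℝ) (n : ℕ) :
    ((n : ℝ) + 1) * ph A v 0 (n + 1) = ∑ l, A l * xi A l n := by
  rw [ph_zero_eq]
  unfold xi
  have e : RR A ^ (n + 1) = ∑ l, C (A l) * (X l * (X l * RR A ^ n)) := by
    rw [pow_succ]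
    nth_rewrite 2 [RR]
    rw [Finset.mul_sum]
    apply Finset.sum_congr rfl
    intro l _
    ring
  rw [e, map_sum, Nat.factorial_succ]
  have h1 : ((n.factorial : ℕ) : ℝ) ≠ 0 := by exact_mod_cast Nat.factorial_ne_zero n
  have h2 : ((n : ℝ) + 1) ≠ 0 := by positivity
  rw [Finset.sum_div, Finset.mul_sum]
  apply Finset.sum_congr rfl
  intro l _
  rw [← smul_eq_C_mul, map_smul, smul_eq_mul]
  push_cast
  field_simp

/-- `ρ_k`, the even moments, and the vanishing of the odd ones -/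
lemma base (x y : ℝ) (v : Fin 4 → ℝ) (k : ℕ) :
    ph (Aab x y) v 0 (2 * k + 1) = 0 ∧
      xi (Aab x y) 0 (2 * k) - xi (Aab x y) 1 (2 * k) = 0 ∧
      xi (Aab x y) 2 (2 * k) - xi (Aab x y) 3 (2 * k) = 0 ∧
      0 ≤ ph (Aab x y) v 0 (2 * k) ∧
      0 ≤ x * (xi (Aab x y) 0 (2 * k + 1) - xi (Aab x y) 1 (2 * k + 1)) ∧
      0 ≤ y * (xi (Aab x y) 2 (2 * k + 1) - xi (Aab x y) 3 (2 * k + 1)) ∧
      0 ≤ (x ^ 2 - y ^ 2) *
        (x * (xi (Aab x y) 0 (2 * k + 1) - xi (Aab x y) 1 (2 * k + 1)) -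
          y * (xi (Aab x y) 2 (2 * k + 1) - xi (Aab x y) 3 (2 * k + 1))) ∧
      2 * (x ^ 2 + y ^ 2) * ph (Aab x y) v 0 (2 * k) ≤ ph (Aab x y) v 0 (2 * k + 2) := by
  have hr : ∀ n : ℕ, ((n : ℝ) + 1) * ph (Aab x y) v 0 (n + 1) =
      x * (xi (Aab x y) 0 n - xi (Aab x y) 1 n) + y * (xi (Aab x y) 2 n - xi (Aab x y) 3 n) := by
    intro n
    rw [ph_rec, Fin.sum_univ_four]
    simp [Aab]
    ring
  have s0 : ∀ n : ℕ, xi (Aab x y) 0 (n + 1) = 2 * x * xi (Aab x y) 0 n +
      ph (Aab x y) v 0 (n + 1) := fun n => by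
    have := xi_succ (Aab x y) v 0 n
    simpa [Aab] using this
  have s1 : ∀ n : ℕ, xi (Aab x y) 1 (n + 1) = -(2 * x * xi (Aab x y) 1 n) +
      ph (Aab x y) v 0 (n + 1) := fun n => by
    have := xi_succ (Aab x y) v 1 n
    simpa [Aab] using this
  have s2 : ∀ n : ℕ, xi (Aab x y) 2 (n + 1) = 2 * y * xi (Aab x y) 2 n +
      ph (Aab x y) v 0 (n + 1) := fun n => by
    have := xi_succ (Aab x y) v 2 n
    simpa [Aab] using this
  have s3 : ∀ n : ℕ, xi (Aab x y) 3 (n + 1) = -(2 * y * xi (Aab x y) 3 n) +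
      ph (Aab x y) v 0 (n + 1) := fun n => by
    have := xi_succ (Aab x y) v 3 n
    simpa [Aab] using this
  -- the final inequality from the others
  have fin : ∀ (k : ℕ) (a b r r' : ℝ), 2 * (k : ℝ) * r = a + b →
      0 ≤ (x ^ 2 - y ^ 2) * (a - b) →
      (2 * (k : ℝ) + 2) * r' = 4 * x ^ 2 * (a + r) + 4 * y ^ 2 * (b + r) →
      2 * (x ^ 2 + y ^ 2) * r ≤ r' := by
    intro k a b r r' h1 h2 h3
    have h4 : (2 * (k : ℝ) + 2) * (2 * (x ^ 2 + y ^ 2) * r) ≤ (2 * (k : ℝ) + 2) * r' := by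
      rw [h3]
      have h5 : (2 * (k : ℝ) + 2) * (2 * (x ^ 2 + y ^ 2) * r) =
          2 * (x ^ 2 + y ^ 2) * (a + b) + 4 * (x ^ 2 + y ^ 2) * r := by
        rw [← h1]; ring
      rw [h5]
      nlinarith
    exact le_of_mul_le_mul_left h4 (by positivity)
  induction k with
  | zero =>
    have z0 : xi (Aab x y) 0 0 = 1 := by
      rw [xi_zero (Aab x y) v 0, ph_zero_eq]; simp [EE_one]
    have z1 : xi (Aab x y) 1 0 = 1 := by
      rw [xi_zero (Aab x y) v 1, ph_zero_eq]; simp [EE_one]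
    have z2 : xi (Aab x y) 2 0 = 1 := by
      rw [xi_zero (Aab x y) v 2, ph_zero_eq]; simp [EE_one]
    have z3 : xi (Aab x y) 3 0 = 1 := by
      rw [xi_zero (Aab x y) v 3, ph_zero_eq]; simp [EE_one]
    have p0 : ph (Aab x y) v 0 0 = 1 := by rw [ph_zero_eq]; simp [EE_one]
    have p1 : ph (Aab x y) v 0 1 = 0 := by
      have := hr 0
      rw [z0, z1, z2, z3] at this
      simpa using this
    have t0 := s0 0
    have t1 := s1 0
    have t2 := s2 0
    have t3 := s3 0
    simp only [zero_add] at t0 t1 t2 t3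
    rw [z0, p1] at t0
    rw [z1, p1] at t1
    rw [z2, p1] at t2
    rw [z3, p1] at t3
    have r1 := hr 1
    simp only [mul_zero, zero_add]
    rw [t0, t1, t2, t3] at *
    refine ⟨p1, by rw [z0, z1]; ring, by rw [z2, z3]; ring, by rw [p0]; norm_num, ?_, ?_, ?_, ?_⟩
    · nlinarith [sq_nonneg x]
    · nlinarith [sq_nonneg y]
    · nlinarith [sq_nonneg (x ^ 2 - y ^ 2)]
    · rw [p0]
      norm_num at r1
      nlinarith
  | succ k ih =>
    obtain ⟨i1, i2, i3, i4, i5, i6, i7, i8⟩ := ih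
    have e2 : 2 * (k + 1) = (2 * k + 1) + 1 := by ring
    have u0 := s0 (2 * k)
    have u1 := s1 (2 * k)
    have u2 := s2 (2 * k)
    have u3 := s3 (2 * k)
    rw [i1] at u0 u1 u2 u3
    -- level 2k+2
    have v0 := s0 (2 * k + 1)
    have v1 := s1 (2 * k + 1)
    have v2 := s2 (2 * k + 1)
    have v3 := s3 (2 * k + 1)
    have d01 : xi (Aab x y) 0 (2 * k + 1 + 1) - xi (Aab x y) 1 (2 * k + 1 + 1) = 0 := by
      rw [v0, v1, u0, u1]
      linear_combination (4 * x ^ 2) * i2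
    have d23 : xi (Aab x y) 2 (2 * k + 1 + 1) - xi (Aab x y) 3 (2 * k + 1 + 1) = 0 := by
      rw [v2, v3, u2, u3]
      linear_combination (4 * y ^ 2) * i3
    have r2 := hr (2 * k + 1 + 1)
    rw [d01, d23] at r2
    have p3 : ph (Aab x y) v 0 (2 * k + 1 + 1 + 1) = 0 := by
      have : ((2 * k + 1 + 1 : ℕ) : ℝ) + 1 ≠ 0 := by positivity
      rw [mul_zero, mul_zero, add_zero] at r2
      exact (mul_eq_zero.1 r2).resolve_left this
    -- level 2k+3
    have w0 := s0 (2 * k + 1 + 1)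
    have w1 := s1 (2 * k + 1 + 1)
    have w2 := s2 (2 * k + 1 + 1)
    have w3 := s3 (2 * k + 1 + 1)
    rw [p3] at w0 w1 w2 w3
    have a1 : x * (xi (Aab x y) 0 (2 * k + 1 + 1 + 1) - xi (Aab x y) 1 (2 * k + 1 + 1 + 1)) =
        4 * x ^ 2 * (x * (xi (Aab x y) 0 (2 * k + 1) - xi (Aab x y) 1 (2 * k + 1)) +
          ph (Aab x y) v 0 (2 * k + 1 + 1)) := by
      rw [w0, w1, v0, v1]; ring
    have a2 : y * (xi (Aab x y) 2 (2 * k + 1 + 1 + 1) - xi (Aab x y) 3 (2 * k + 1 + 1 + 1)) =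
        4 * y ^ 2 * (y * (xi (Aab x y) 2 (2 * k + 1) - xi (Aab x y) 3 (2 * k + 1)) +
          ph (Aab x y) v 0 (2 * k + 1 + 1)) := by
      rw [w2, w3, v2, v3]; ring
    have hpos : 0 ≤ ph (Aab x y) v 0 (2 * k + 1 + 1) :=
      le_trans (mul_nonneg (by positivity) i4) i8
    set a := x * (xi (Aab x y) 0 (2 * k + 1) - xi (Aab x y) 1 (2 * k + 1)) with ha
    set b := y * (xi (Aab x y) 2 (2 * k + 1) - xi (Aab x y) 3 (2 * k + 1)) with hb
    set r := ph (Aab x y) v 0 (2 * k + 1 + 1) with hr'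
    have r1 := hr (2 * k + 1)
    rw [← ha, ← hb, ← hr'] at r1
    have r3 := hr (2 * k + 1 + 1 + 1)
    rw [a1, a2] at r3
    rw [e2, a1, a2]
    refine ⟨p3, d01, d23, hpos, by positivity, by positivity, ?_, ?_⟩
    · have e3 : (x ^ 2 - y ^ 2) * (4 * x ^ 2 * (a + r) - 4 * y ^ 2 * (b + r)) =
          4 * (x ^ 2 - y ^ 2) ^ 2 * r + 2 * ((x ^ 2 - y ^ 2) ^ 2 * (a + b)) +
            2 * (x ^ 2 + y ^ 2) * ((x ^ 2 - y ^ 2) * (a - b)) := by ring
      rw [e3]
      have : 0 ≤ a + b := add_nonneg i5 i6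
      have h7 : 0 ≤ 2 * (x ^ 2 + y ^ 2) * ((x ^ 2 - y ^ 2) * (a - b)) :=
        mul_nonneg (by positivity) i7
      positivity
    · refine fin (k + 1) a b r _ ?_ i7 ?_
      · push_cast at r1 ⊢
        linarith
      · push_cast at r3 ⊢
        linarith

/-! ### conclusion -/

lemma sum_even_odd (f : ℕ → ℝ) (n : ℕ) : ∑ i ∈ Finset.range (2 * n + 1), f i =
    ∑ j ∈ Finset.range (n + 1), f (2 * j) + ∑ j ∈ Finset.range n, f (2 * j + 1) := by
  induction n with
  | zero => simp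
  | succ n ih =>
    rw [show 2 * (n + 1) + 1 = 2 * n + 1 + 1 + 1 by ring, Finset.sum_range_succ,
      Finset.sum_range_succ, ih, Finset.sum_range_succ (fun j => f (2 * j)) (n + 1),
      Finset.sum_range_succ (fun j => f (2 * j + 1)) n, show 2 * (n + 1) = 2 * n + 1 + 1 by ring]
    ring

lemma coeff_even {F P : PowerSeries ℝ} (hP : ∀ k, PowerSeries.coeff (2 * k + 1) P = 0) (n : ℕ) :
    PowerSeries.coeff (2 * n) (F * P) = ∑ j ∈ Finset.range (n + 1),
      PowerSeries.coeff (2 * (n - j)) F * PowerSeries.coeff (2 * j) P := by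
  rw [mul_comm, PowerSeries.coeff_mul, Finset.Nat.sum_antidiagonal_eq_sum_range_succ
    (fun i j => PowerSeries.coeff i P * PowerSeries.coeff j F), sum_even_odd]
  have h : ∑ j ∈ Finset.range n, PowerSeries.coeff (2 * j + 1) P *
      PowerSeries.coeff (2 * n - (2 * j + 1)) F = 0 := by
    apply Finset.sum_eq_zero
    intro j _
    rw [hP, zero_mul]
  rw [h, add_zero]
  apply Finset.sum_congr rfl
  intro j _
  rw [← Nat.mul_sub, mul_comm]

/-- the main inequality for real Gaussian variables -/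
theorem real_ineq (x y : ℝ) (v : Fin 4 → ℝ) (s k : ℕ) :
    2 * (x ^ 2 + y ^ 2) * ph (Aab x y) v s (2 * k) ≤ ph (Aab x y) v s (2 * k + 2) := by
  obtain ⟨F, hF, e⟩ := Ph_eq (Aab x y) v s
  have hE : EPos F := by
    have := hF 0
    rwa [Multiset.map_zero, Multiset.prod_zero, mul_one] at this
  have hodd : ∀ k, PowerSeries.coeff (2 * k + 1) (PowerSeries.mk (ph (Aab x y) v 0)) = 0 := by
    intro k
    rw [PowerSeries.coeff_mk]
    exact (base x y v k).1
  have h1 : ∀ n, ph (Aab x y) v s (2 * n) = ∑ j ∈ Finset.range (n + 1),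
      PowerSeries.coeff (2 * (n - j)) F * ph (Aab x y) v 0 (2 * j) := by
    intro n
    have := congrArg (PowerSeries.coeff (2 * n)) e
    rw [PowerSeries.coeff_mk, coeff_even hodd] at this
    rw [this]
    apply Finset.sum_congr rfl
    intro j _
    rw [PowerSeries.coeff_mk]
  rw [show 2 * k + 2 = 2 * (k + 1) by ring, h1 (k + 1), h1 k, Finset.sum_range_succ']
  have h0 : 0 ≤ PowerSeries.coeff (2 * (k + 1 - 0)) F * ph (Aab x y) v 0 (2 * 0) :=
    mul_nonneg (hE _) (base x y v 0).2.2.2.1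
  have h2 : 2 * (x ^ 2 + y ^ 2) * ∑ j ∈ Finset.range (k + 1),
      PowerSeries.coeff (2 * (k - j)) F * ph (Aab x y) v 0 (2 * j) ≤
      ∑ j ∈ Finset.range (k + 1),
      PowerSeries.coeff (2 * (k + 1 - (j + 1))) F * ph (Aab x y) v 0 (2 * (j + 1)) := by
    rw [Finset.mul_sum]
    apply Finset.sum_le_sum
    intro j _
    rw [Nat.add_sub_add_right]
    have h3 := (base x y v j).2.2.2.2.2.2.2
    have h4 := mul_le_mul_of_nonneg_left h3 (hE (k - j))
    rw [show 2 * (j + 1) = 2 * j + 2 by ring]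
    linarith
  linarith

end Pool.Agent.Work.MP_8d2b2d_co
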